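import Pool.Agent.TH847.SC.Step

/-!
Pairwise coprime finite sumsets: phases.
-/

set_option autoImplicit false

open Finset

namespace Pool.Agent.TH847.SC

/-- the number of elements up to `n` -/
def cnt (B : Finset ℕ) (n : ℕ) : ℕ := (B.filter (fun b => b ≤ n)).card

lemma cnt_mono {B B' : Finset ℕ} (h : B ⊆ B') (n : ℕ) : cnt B n ≤ cnt B' n :=
  card_le_card (filter_subset_filter _ h)

lemma cnt_full {B : Finset ℕ} {n : ℕ} (h : ∀ b ∈ B, b ≤ n) : cnt B n = B.card := by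
  unfold cnt
  rw [filter_true_of_mem h]

/-- the property of the constants that the step needs -/
def SB (k R J0 : ℕ) : Prop := ∀ (A B : Finset ℕ) (J x : ℕ), J0 ≤ J →
    A.card = k → Adm A → PC A B → (∀ b ∈ B, 1 ≤ b ∧ b ≤ x) → x ≤ zz J ^ (R - 1) →
    (∀ a ∈ A, a ≤ 2 ^ mm J) → B.card ≤ mm J →
    ∃ B', B ⊆ B' ∧ B'.card = B.card + mm J ∧ (∀ b ∈ B', 1 ≤ b ∧ b ≤ zz J ^ R) ∧ PC A B'

/-- the state at scale `J`: `k` elements in the first set -/
def Good (R k J : ℕ) (A B : Finset ℕ) : Prop := A.card = k ∧ 0 ∈ A ∧ Adm A ∧ PC A B ∧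
  (∀ b ∈ B, 1 ≤ b ∧ b ≤ zz J ^ R) ∧ (∀ a ∈ A, a ≤ 2 ^ mm J) ∧ B.card ≤ 2 * mm J ∧ mm J ≤ B.card

lemma zz_pos (J : ℕ) : 1 ≤ zz J := Nat.one_le_two_pow

lemma zz_mono {I J : ℕ} (h : I ≤ J) : zz I ≤ zz J := by
  unfold zz
  exact Nat.pow_le_pow_right (by norm_num) (Nat.pow_le_pow_right (by norm_num) (by omega))

/-- the next scale in the same phase -/
lemma same {k R J0 : ℕ} (hR : 2 ≤ R) (hJ3 : 3 ≤ J0) (h : SB k R J0) {J : ℕ} (hJ : J0 ≤ J) {A B : Finset ℕ}
    (hG : Good R k J A B) : ∃ B', B ⊆ B' ∧ Good R k (J + 1) A B' := by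
  obtain ⟨h1, h2, h3, h4, h5, h6, h7, h8⟩ := hG
  have hm2 := mm_pos J
  have hms := mm_succ J (by omega)
  obtain ⟨B', e1, e2, e3, e4⟩ := h A B (J + 1) (zz J ^ R) (by omega) h1 h3 h4 h5
    (by
      rw [zz_add J 1, ← pow_mul]
      exact Nat.pow_le_pow_right (zz_pos J) (by omega))
    (fun a ha => (h6 a ha).trans (Nat.pow_le_pow_right (by norm_num) (mm_mono (by omega))))
    (by rw [hms]; nlinarith)
  refine ⟨B', e1, h1, h2, h3, e4, e3, fun a ha => (h6 a ha).trans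
    (Nat.pow_le_pow_right (by norm_num) (mm_mono (by omega))), ?_, ?_⟩
  · rw [e2, hms]
    nlinarith
  · rw [e2]
    omega

/-- many scales in the same phase -/
lemma run {k R J0 : ℕ} (hR : 2 ≤ R) (hJ3 : 3 ≤ J0) (h : SB k R J0) {J : ℕ} (hJ : J0 ≤ J) {A B : Finset ℕ}
    (hG : Good R k J A B) (i : ℕ) : ∃ B', B ⊆ B' ∧ Good R k (J + i) A B' ∧
      ∀ n, zz J ^ R ≤ n → n ≤ zz (J + i) ^ R → n ≤ (cnt B' n) ^ (16 * R) := by
  induction i with
  | zero =>
    refine ⟨B, Subset.refl _, hG, fun n hn1 hn2 => ?_⟩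
    have hn : n = zz J ^ R := le_antisymm hn2 hn1
    obtain ⟨h1, h2, h3, h4, h5, h6, h7, h8⟩ := hG
    rw [cnt_full (fun b hb => by rw [hn]; exact (h5 b hb).2)]
    have hm2 := mm_pos J
    calc n = mm J ^ (8 * R) := by rw [hn, zz_eq J (by omega), ← pow_mul]
      _ ≤ mm J ^ (16 * R) := Nat.pow_le_pow_right (by omega) (by omega)
      _ ≤ B.card ^ (16 * R) := Nat.pow_le_pow_left h8 _
  | succ i ih =>
    obtain ⟨B', e1, e2, e3⟩ := ih
    obtain ⟨B'', f1, f2⟩ := same hR hJ3 h (J := J + i) (by omega) e2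
    refine ⟨B'', e1.trans f1, f2, fun n hn1 hn2 => ?_⟩
    rcases Nat.le_total n (zz (J + i) ^ R) with hle | hle
    · exact (e3 n hn1 hle).trans (Nat.pow_le_pow_left (cnt_mono f1 n) _)
    · obtain ⟨h1, h2, h3, h4, h5, h6, h7, h8⟩ := e2
      have hc : mm (J + i) ≤ cnt B'' n := by
        calc mm (J + i) ≤ B'.card := h8
          _ = cnt B' n := (cnt_full fun b hb => (h5 b hb).2.trans hle).symm
          _ ≤ cnt B'' n := cnt_mono f1 n
      calc n ≤ zz (J + (i + 1)) ^ R := hn2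
        _ = mm (J + i) ^ (16 * R) := by
            rw [← add_assoc, zz_add (J + i) 1, zz_eq (J + i) (by omega), ← pow_mul, ← pow_mul]
            congr 1
            ring
        _ ≤ cnt B'' n ^ (16 * R) := Nat.pow_le_pow_left hc _

/-- the next phase -/
lemma up {k R J0 R' J0' : ℕ} (hk : 2 ≤ k) (hJ3 : 3 ≤ J0) (hR' : 2 ≤ R')
    (h' : SB (k + 1) R' J0') {J : ℕ} (hJ : J0 ≤ J) (hJ' : J0' ≤ J) (hkJ : k ≤ J)
    {A B : Finset ℕ} (hG : Good R k J A B) (hAz : ∀ a ∈ A, a ≤ zz J ^ R) (hR : 2 ≤ R) :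
    ∃ a' B', a' ∉ A ∧ B ⊆ B' ∧ Good R' (k + 1) (J + (R + 6)) (insert a' A) B' ∧
      ∀ n, zz J ^ R ≤ n → n ≤ zz (J + (R + 6)) ^ R' → n ≤ (cnt B' n) ^ (8 * 2 ^ (R + 6) * R') := by
  classical
  obtain ⟨h1, h2, h3, h4, h5, h6, h7, h8⟩ := hG
  have hm2 := mm_pos J
  have hzJ : J < zz J := by
    unfold zz
    have e1 : J < 2 ^ J := Nat.lt_two_pow_self
    have e2 : 2 ^ J < 2 ^ 2 ^ J := Nat.lt_two_pow_self
    omega
  have hzR : zz J ≤ zz J ^ R := Nat.le_self_pow (by omega) _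
  obtain ⟨a2, ha2, hne⟩ : ∃ a2 ∈ A, a2 ≠ 0 := by
    by_contra hcon
    push Not at hcon
    have e1 : A ⊆ {0} := fun a ha => mem_singleton.2 (hcon a ha)
    have e2 := card_le_card e1
    rw [card_singleton] at e2
    omega
  set Y := 2 * zz J ^ R with hY
  obtain ⟨a', g1, g2, g3, g4⟩ := opA A B 0 a2 Y h2 ha2 (Ne.symm hne) h4 h3
    (fun a ha b hb => by
      have e1 := h5 b hb
      have e2 := hAz a ha
      exact ⟨by omega, by omega⟩)
    (fun b hb => by have e1 := h5 b hb; omega) (by omega)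
  have ha'A : a' ∉ A := fun ha => by
    have := hAz a' ha
    omega
  have hcard : (insert a' A).card = k + 1 := by rw [card_insert_of_notMem ha'A, h1]
  -- the size of `a'`
  have hmh : 2 * Y + 1 ≤ mm (J + (R + 6)) := by
    have e1 : mm (J + (R + 6)) = zz J ^ 2 ^ (R + 3) := by
      unfold mm zz
      rw [← pow_mul, ← pow_add]
      congr 2
    have e2 : 2 * Y + 1 ≤ zz J ^ 3 * zz J ^ R := by
      have e3 : 8 ≤ zz J ^ 3 := by
        calc 8 = 2 ^ 3 := by norm_num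
          _ ≤ zz J ^ 3 := Nat.pow_le_pow_left (by omega) 3
      have e4 : 8 * zz J ^ R ≤ zz J ^ 3 * zz J ^ R := Nat.mul_le_mul_right _ e3
      omega
    rw [e1]
    refine e2.trans ?_
    rw [← pow_add]
    apply Nat.pow_le_pow_right (zz_pos J)
    have : R + 3 < 2 ^ (R + 3) := Nat.lt_two_pow_self
    omega
  have ha'm : a' ≤ 2 ^ mm (J + (R + 6)) := by
    have e1 : Y < 4 ^ Y := Nat.lt_pow_self (by norm_num)
    calc a' ≤ 2 * 4 ^ Y := by omega
      _ = 2 ^ (2 * Y + 1) := by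
          rw [show (4 : ℕ) = 2 ^ 2 by norm_num, ← pow_mul, pow_succ, mul_comm]
      _ ≤ 2 ^ mm (J + (R + 6)) := Nat.pow_le_pow_right (by norm_num) hmh
  have hmm : 2 * mm J ≤ mm (J + (R + 6)) := by
    have e1 := mm_succ J (by omega)
    have e2 : mm (J + 1) ≤ mm (J + (R + 6)) := mm_mono (by omega)
    nlinarith
  obtain ⟨B', e1, e2, e3, e4⟩ := h' (insert a' A) B (J + (R + 6)) (zz J ^ R) (by omega) hcard g4 g3 h5
    (by
      rw [zz_add J (R + 6), ← pow_mul]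
      apply Nat.pow_le_pow_right (zz_pos J)
      have e5 : R + 6 < 2 ^ (R + 6) := Nat.lt_two_pow_self
      calc R ≤ 2 ^ (R + 6) * 1 := by omega
        _ ≤ 2 ^ (R + 6) * (R' - 1) := Nat.mul_le_mul_left _ (by omega))
    (by
      intro a ha
      rw [mem_insert] at ha
      rcases ha with rfl | ha
      · exact ha'm
      · exact (h6 a ha).trans (Nat.pow_le_pow_right (by norm_num) (mm_mono (by omega))))
    (by omega)
  refine ⟨a', B', ha'A, e1, ⟨hcard, mem_insert_of_mem h2, g4, e4, e3, ?_, by omega, by omega⟩, ?_⟩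
  · intro a ha
    rw [mem_insert] at ha
    rcases ha with rfl | ha
    · exact ha'm
    · exact (h6 a ha).trans (Nat.pow_le_pow_right (by norm_num) (mm_mono (by omega)))
  · intro n hn1 hn2
    have hc : mm J ≤ cnt B' n := by
      calc mm J ≤ B.card := h8
        _ = cnt B n := (cnt_full fun b hb => (h5 b hb).2.trans hn1).symm
        _ ≤ cnt B' n := cnt_mono e1 n
    calc n ≤ zz (J + (R + 6)) ^ R' := hn2
      _ = mm J ^ (8 * 2 ^ (R + 6) * R') := by
          rw [zz_add J (R + 6), zz_eq J (by omega), ← pow_mul, ← pow_mul, mul_assoc]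
      _ ≤ cnt B' n ^ (8 * 2 ^ (R + 6) * R') := Nat.pow_le_pow_left hc _

/-- a phase followed by the passage to the next -/
theorem cycle {k R J0 R' J0' : ℕ} (hk : 2 ≤ k) (hR : 2 ≤ R) (hJ3 : 3 ≤ J0) (h : SB k R J0) (hR' : 2 ≤ R')
    (h' : SB (k + 1) R' J0') {J : ℕ} (hJ : J0 ≤ J) {A B : Finset ℕ} (hG : Good R k J A B) (N : ℕ) :
    ∃ J' A' B', N ≤ J' ∧ J ≤ J' ∧ A ⊆ A' ∧ B ⊆ B' ∧ Good R' (k + 1) J' A' B' ∧
      ∀ n, zz J ^ R ≤ n → n ≤ zz J' ^ R' → n ≤ (cnt B' n) ^ (16 * R + 8 * 2 ^ (R + 6) * R') := by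
  classical
  have hpJ : 0 < 2 ^ J := by positivity
  set i := N + J0' + k + 2 ^ J with hi
  obtain ⟨B1, e1, e2, e3⟩ := run hR hJ3 h hJ hG i
  have hAz : ∀ a ∈ A, a ≤ zz (J + i) ^ R := by
    intro a ha
    obtain ⟨_, _, _, _, _, h6, _, _⟩ := hG
    calc a ≤ 2 ^ mm J := h6 a ha
      _ ≤ zz (J + i) := by
          unfold mm zz
          apply Nat.pow_le_pow_right (by norm_num)
          apply Nat.pow_le_pow_right (by norm_num)
          have : 2 ^ (J - 3) ≤ 2 ^ J := Nat.pow_le_pow_right (by norm_num) (by omega)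
          omega
      _ ≤ zz (J + i) ^ R := Nat.le_self_pow (by omega) _
  obtain ⟨a', B2, f1, f2, f3, f4⟩ := up hk hJ3 hR' h' (J := J + i) (by omega) (by omega) (by omega) e2 hAz hR
  refine ⟨J + i + (R + 6), insert a' A, B2, by omega, by omega, subset_insert _ _, e1.trans f2, f3, ?_⟩
  intro n hn1 hn2
  have hge : 1 ≤ cnt B2 n := by
    obtain ⟨h1, h2, h3, h4, h5, h6, h7, h8⟩ := hG
    have hm2 := mm_pos J
    calc 1 ≤ mm J := by omega
      _ ≤ B.card := h8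
      _ = cnt B n := (cnt_full fun b hb => (h5 b hb).2.trans hn1).symm
      _ ≤ cnt B2 n := cnt_mono (e1.trans f2) n
  rcases Nat.le_total n (zz (J + i) ^ R) with hle | hle
  · calc n ≤ cnt B1 n ^ (16 * R) := e3 n hn1 hle
      _ ≤ cnt B2 n ^ (16 * R) := Nat.pow_le_pow_left (cnt_mono f2 n) _
      _ ≤ _ := Nat.pow_le_pow_right hge (by omega)
  · calc n ≤ cnt B2 n ^ (8 * 2 ^ (R + 6) * R') := f4 n hle hn2
      _ ≤ _ := Nat.pow_le_pow_right hge (by omega)

/-- the first state -/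
theorem start {R J0 : ℕ} (hJ3 : 3 ≤ J0) (h : SB 2 R J0) (J : ℕ) (hJ : J0 ≤ J) :
    ∃ B, Good R 2 J {0, 2} B := by
  have hAdm : Adm ({0, 2} : Finset ℕ) := by
    intro p hp
    rcases Nat.lt_or_ge 2 p with h2 | h2
    · apply avoid
      have : ({0, 2} : Finset ℕ).card = 2 := rfl
      omega
    · have hp2 : p = 2 := le_antisymm h2 hp.two_le
      subst hp2
      refine ⟨1, fun a ha => ?_⟩
      rw [mem_insert, mem_singleton] at ha
      rcases ha with rfl | rfl <;> norm_num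
  have hm2 := mm_pos J
  have hA : ∀ a ∈ ({0, 2} : Finset ℕ), a ≤ 2 ^ mm J := by
    intro a ha
    rw [mem_insert, mem_singleton] at ha
    have : 2 ≤ 2 ^ mm J := by
      calc 2 = 2 ^ 1 := rfl
        _ ≤ 2 ^ mm J := Nat.pow_le_pow_right (by norm_num) (by omega)
    rcases ha with rfl | rfl <;> omega
  obtain ⟨B', e1, e2, e3, e4⟩ := h {0, 2} ∅ J 0 hJ rfl hAdm
    (by intro a _ b hb; exact absurd hb (notMem_empty b)) (by intro b hb; exact absurd hb (notMem_empty b))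
    (Nat.zero_le _) hA (by simp)
  rw [card_empty, Nat.zero_add] at e2
  exact ⟨B', rfl, by simp, hAdm, e4, e3, hA, by omega, by omega⟩

end Pool.Agent.TH847.SC
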