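import Pool.Agent.TH847.SC.Cycle

/-!
Infinite sets with pairwise coprime sums, and their growth.
-/

set_option autoImplicit false

open Finset Filter Topology

namespace Pool.Agent.TH847.SC

/-- the sumset -/
def sums (A B : Set ℕ) : Set ℕ := {s : ℕ | ∃ a ∈ A, ∃ b ∈ B, s = a + b}

/-- both sets are infinite and distinct sums are coprime -/
def Admissible (A B : Set ℕ) : Prop := A.Infinite ∧ B.Infinite ∧
  ∀ x ∈ sums A B, ∀ y ∈ sums A B, x ≠ y → Nat.Coprime x y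

/-- the number of the sums in `{1, …, n}` -/
noncomputable def S (A B : Set ℕ) (n : ℕ) : ℕ := (sums A B ∩ Set.Icc 1 n).ncard

theorem exists_seq : ∃ (Rf E : ℕ → ℕ), (∀ k, 2 ≤ Rf k) ∧ (∀ k, 1 ≤ E k) ∧ ∀ Thr : ℕ → ℕ,
    ∃ (J : ℕ → ℕ) (A B : ℕ → Finset ℕ), ∀ j, Thr j ≤ J j ∧ Good (Rf (j + 2)) (j + 2) (J j) (A j) (B j) ∧
      A j ⊆ A (j + 1) ∧ B j ⊆ B (j + 1) ∧
      ∀ n, zz (J j) ^ Rf (j + 2) ≤ n → n ≤ zz (J (j + 1)) ^ Rf (j + 3) →
        n ≤ (cnt (B (j + 1)) n) ^ E j := by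
  have hst : ∀ k : ℕ, ∃ R J0 : ℕ, 2 ≤ R ∧ 3 ≤ J0 ∧ (1 ≤ k → SB k R J0) := by
    intro k
    by_cases hk : 1 ≤ k
    · obtain ⟨R, J0, h1, h2, h3⟩ := stepB k hk
      exact ⟨R, J0, h1, h2, fun _ => h3⟩
    · exact ⟨2, 3, le_rfl, le_rfl, fun h => absurd h hk⟩
  choose Rf Jf hR hJ3 hSB using hst
  set E : ℕ → ℕ := fun j => 16 * Rf (j + 2) + 8 * 2 ^ (Rf (j + 2) + 6) * Rf (j + 3) with hE
  refine ⟨Rf, E, hR, fun k => ?_, fun Thr => ?_⟩
  · have := hR (k + 2)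
    simp only [hE]
    omega
  -- states
  set N : ℕ → ℕ := fun j => Thr j + Jf (j + 2) with hN
  have hex : ∀ j (s : ℕ × Finset ℕ × Finset ℕ), N j ≤ s.1 ∧ Good (Rf (j + 2)) (j + 2) s.1 s.2.1 s.2.2 →
      ∃ t : ℕ × Finset ℕ × Finset ℕ, (N (j + 1) ≤ t.1 ∧ Good (Rf (j + 1 + 2)) (j + 1 + 2) t.1 t.2.1 t.2.2) ∧
        s.2.1 ⊆ t.2.1 ∧ s.2.2 ⊆ t.2.2 ∧
        ∀ n, zz s.1 ^ Rf (j + 2) ≤ n → n ≤ zz t.1 ^ Rf (j + 3) → n ≤ (cnt t.2.2 n) ^ E j := by
    rintro j ⟨J, A, B⟩ ⟨h1, h2⟩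
    obtain ⟨J', A', B', e1, _, e3, e4, e5, e6⟩ := cycle (k := j + 2) (by omega) (hR (j + 2)) (hJ3 (j + 2))
      (hSB (j + 2) (by omega)) (hR (j + 3)) (hSB (j + 3) (by omega)) (J := J)
      (by
        have : N j ≤ J := h1
        simp only [hN] at this
        omega) h2 (N (j + 1))
    exact ⟨(J', A', B'), ⟨e1, e5⟩, e3, e4, e6⟩
  obtain ⟨B0, hB0⟩ := start (hJ3 2) (hSB 2 (by norm_num)) (N 0) (Nat.le_add_left _ _)
  let St : ℕ → Type := fun j =>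
    {s : ℕ × Finset ℕ × Finset ℕ // N j ≤ s.1 ∧ Good (Rf (j + 2)) (j + 2) s.1 s.2.1 s.2.2}
  let f : ∀ j, St j := fun j => Nat.rec (motive := St) ⟨(N 0, {0, 2}, B0), le_rfl, hB0⟩
    (fun j s => ⟨(hex j s.1 s.2).choose, (hex j s.1 s.2).choose_spec.1⟩) j
  have hf : ∀ j, (f (j + 1)).1 = (hex j (f j).1 (f j).2).choose := fun j => rfl
  refine ⟨fun j => (f j).1.1, fun j => (f j).1.2.1, fun j => (f j).1.2.2, fun j => ?_⟩
  have h1 := (f j).2
  have h2 := (hex j (f j).1 (f j).2).choose_spec.2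
  rw [← hf j] at h2
  refine ⟨?_, h1.2, h2.1, h2.2.1, h2.2.2⟩
  exact le_trans (Nat.le_add_right _ _) h1.1

theorem exists_pair (ε : ℕ → ℝ) (hε : Tendsto ε atTop (𝓝 0)) : ∃ A B : Set ℕ, Admissible A B ∧
    ∀ᶠ n : ℕ in atTop, (n : ℝ) ^ (ε n) ≤ S A B n := by
  obtain ⟨Rf, E, hR, hE, hseq⟩ := exists_seq
  have hthr : ∀ j : ℕ, ∃ N : ℕ, ∀ n ≥ N, ε n ≤ 1 / (E j : ℝ) := by
    intro j
    have hpos : (0 : ℝ) < 1 / (E j : ℝ) := by
      have : (0 : ℝ) < E j := by exact_mod_cast hE j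
      positivity
    exact eventually_atTop.1 ((hε.eventually_lt_const hpos).mono fun n hn => hn.le)
  choose N hN using hthr
  obtain ⟨J, A, B, h⟩ := hseq (fun j => N j + j)
  have hAm : Monotone A := monotone_nat_of_le_succ fun j => (h j).2.2.1
  have hBm : Monotone B := monotone_nat_of_le_succ fun j => (h j).2.2.2.1
  have hJj : ∀ j, j ≤ J j := fun j => by have := (h j).1; omega
  have hzJ : ∀ j, J j < zz (J j) ^ Rf (j + 2) := by
    intro j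
    have e1 : J j < 2 ^ J j := Nat.lt_two_pow_self
    have e2 : 2 ^ J j < 2 ^ 2 ^ J j := Nat.lt_two_pow_self
    have e3 : zz (J j) ≤ zz (J j) ^ Rf (j + 2) := Nat.le_self_pow (by have := hR (j + 2); omega) _
    unfold zz at e3 ⊢
    omega
  set A' : Set ℕ := {a | ∃ j, a ∈ A j} with hA'
  set B' : Set ℕ := {b | ∃ j, b ∈ B j} with hB'
  refine ⟨A', B', ⟨?_, ?_, ?_⟩, ?_⟩
  · intro hfin
    have h1 : A hfin.toFinset.card ⊆ hfin.toFinset := fun a ha => hfin.mem_toFinset.2 ⟨_, ha⟩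
    have h2 := card_le_card h1
    rw [(h _).2.1.1] at h2
    omega
  · intro hfin
    have h1 : B (hfin.toFinset.card + 3) ⊆ hfin.toFinset := fun a ha => hfin.mem_toFinset.2 ⟨_, ha⟩
    have h2 := card_le_card h1
    obtain ⟨_, _, _, _, _, _, _, h8⟩ := (h (hfin.toFinset.card + 3)).2.1
    have h3 := mm_gt (J (hfin.toFinset.card + 3))
    have h4 : J (hfin.toFinset.card + 3) - 3 < 2 ^ (J (hfin.toFinset.card + 3) - 3) := Nat.lt_two_pow_self
    have h5 := hJj (hfin.toFinset.card + 3)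
    omega
  · rintro x ⟨a, ⟨i1, ha⟩, b, ⟨i2, hb⟩, rfl⟩ y ⟨a', ⟨i3, ha'⟩, b', ⟨i4, hb'⟩, rfl⟩ hne
    set j := i1 + i2 + i3 + i4 with hj
    obtain ⟨_, _, _, hPC, _⟩ := (h j).2.1
    apply hPC a (hAm (by omega : i1 ≤ j) ha) b (hBm (by omega : i2 ≤ j) hb) a' (hAm (by omega : i3 ≤ j) ha')
      b' (hBm (by omega : i4 ≤ j) hb')
    by_contra hcon
    push Not at hcon
    exact hne (by rw [hcon.1, hcon.2])
  · filter_upwards [eventually_ge_atTop (zz (J 0) ^ Rf 2)] with n hn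
    have hex : ∃ i, n < zz (J i) ^ Rf (i + 2) := ⟨n, by
      have e1 := hzJ n
      have e2 := hJj n
      omega⟩
    classical
    have hi0 : Nat.find hex ≠ 0 := by
      intro h0
      have h1 := Nat.find_spec hex
      rw [h0] at h1
      exact absurd h1 (not_lt.2 hn)
    obtain ⟨j, hj⟩ := Nat.exists_eq_succ_of_ne_zero hi0
    have h1 := Nat.find_spec hex
    have h2 := Nat.find_min hex (show j < Nat.find hex by omega)
    rw [hj] at h1
    obtain ⟨hT, hG, _, _, hgr⟩ := h j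
    have h3 := hgr n (by omega) h1.le
    -- the number of sums
    have h4 : cnt (B (j + 1)) n ≤ S A' B' n := by
      unfold cnt S
      rw [← Set.ncard_coe_finset]
      apply Set.ncard_le_ncard _ ((Set.finite_Icc 1 n).inter_of_right _)
      intro b hb
      rw [mem_coe, mem_filter] at hb
      obtain ⟨_, _, _, _, h5, _⟩ := (h (j + 1)).2.1
      refine ⟨⟨0, ⟨0, (h 0).2.1.2.1⟩, b, ⟨j + 1, hb.1⟩, by omega⟩, (h5 b hb.1).1, hb.2⟩
    have hn1 : 1 ≤ n := by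
      have h6 : J 0 < zz (J 0) ^ Rf 2 := hzJ 0
      omega
    have hn1' : (1 : ℝ) ≤ n := by exact_mod_cast hn1
    have hEj : (0 : ℝ) < E j := by exact_mod_cast hE j
    have hεn : ε n ≤ 1 / (E j : ℝ) := by
      apply hN j n
      have e1 := hzJ j
      omega
    calc (n : ℝ) ^ (ε n) ≤ (n : ℝ) ^ (1 / (E j : ℝ)) := Real.rpow_le_rpow_of_exponent_le hn1' hεn
      _ ≤ (((cnt (B (j + 1)) n : ℕ) : ℝ) ^ (E j : ℕ)) ^ (1 / (E j : ℝ)) := by
          apply Real.rpow_le_rpow (by positivity) _ (by positivity)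
          exact_mod_cast h3
      _ = ((cnt (B (j + 1)) n : ℕ) : ℝ) := by
          rw [← Real.rpow_natCast, ← Real.rpow_mul (Nat.cast_nonneg _), mul_one_div_cancel hEj.ne',
            Real.rpow_one]
      _ ≤ S A' B' n := by exact_mod_cast h4

/-- a common upper bound for the growth is at least a power -/
theorem upper_order (g : ℕ → ℝ) (hg : ∀ n, 0 ≤ g n)
    (h : ∀ A B : Set ℕ, Admissible A B → ∃ C : ℝ, ∀ᶠ n : ℕ in atTop, (S A B n : ℝ) ≤ C * g n) :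
    ∃ c : ℝ, 0 < c ∧ ∀ᶠ n : ℕ in atTop, (n : ℝ) ^ c ≤ g n := by
  by_contra hcon
  push Not at hcon
  have hfreq : ∀ j : ℕ, ∃ᶠ n : ℕ in atTop, g n < (n : ℝ) ^ (1 / ((j : ℝ) + 1)) ∧ 2 ^ ((j + 1) ^ 2) ≤ n := by
    intro j
    have h1 := hcon (1 / ((j : ℝ) + 1)) (by positivity)
    exact h1.and_eventually (eventually_ge_atTop _)
  obtain ⟨φ, hφ, hφ2⟩ := extraction_forall_of_frequently hfreq
  set ε : ℕ → ℝ := Function.extend φ (fun j => 2 / ((j : ℝ) + 1)) 0 with hε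
  have hεφ : ∀ j, ε (φ j) = 2 / ((j : ℝ) + 1) := fun j => hφ.injective.extend_apply _ _ j
  have hε0 : Tendsto ε atTop (𝓝 0) := by
    rw [Metric.tendsto_atTop]
    intro δ hδ
    obtain ⟨J, hJ⟩ := exists_nat_gt (2 / δ)
    refine ⟨φ J, fun n hn => ?_⟩
    rw [Real.dist_eq, sub_zero]
    by_cases hex : ∃ j, φ j = n
    · obtain ⟨j, rfl⟩ := hex
      rw [hεφ, abs_of_nonneg (by positivity)]
      have hjJ : J ≤ j := hφ.le_iff_le.1 hn
      have hjJ' : (J : ℝ) ≤ j := by exact_mod_cast hjJ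
      rw [div_lt_iff₀ (by positivity)]
      rw [div_lt_iff₀ hδ] at hJ
      nlinarith
    · rw [hε, Function.extend_apply' _ _ _ hex]
      simpa using hδ
  obtain ⟨A, B, hAB, hgr⟩ := exists_pair ε hε0
  obtain ⟨C, hC⟩ := h A B hAB
  obtain ⟨J, hJ⟩ := exists_nat_gt |C|
  have hev := hφ.tendsto_atTop.eventually (hgr.and hC)
  obtain ⟨j, ⟨h1, h2⟩, hjJ⟩ := (hev.and (eventually_ge_atTop J)).exists
  obtain ⟨h3, h4⟩ := hφ2 j
  rw [hεφ] at h1
  have hj1 : (0 : ℝ) < (j : ℝ) + 1 := by positivity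
  have hn0 : (0 : ℝ) < (φ j : ℝ) := by
    have : 0 < 2 ^ ((j + 1) ^ 2) := by positivity
    exact_mod_cast (show 0 < φ j by omega)
  set y : ℝ := (φ j : ℝ) ^ (1 / ((j : ℝ) + 1)) with hy
  have hy0 : 0 < y := Real.rpow_pos_of_pos hn0 _
  have h5 : (φ j : ℝ) ^ (2 / ((j : ℝ) + 1)) = y * y := by
    rw [hy, ← Real.rpow_add hn0]
    congr 1
    ring
  have h6 : y * y ≤ |C| * y := by
    rw [← h5]
    calc (φ j : ℝ) ^ (2 / ((j : ℝ) + 1)) ≤ C * g (φ j) := h1.trans h2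
      _ ≤ |C| * g (φ j) := mul_le_mul_of_nonneg_right (le_abs_self C) (hg _)
      _ ≤ |C| * y := mul_le_mul_of_nonneg_left h3.le (abs_nonneg C)
  have h7 : y ≤ |C| := le_of_mul_le_mul_right h6 hy0
  have h8 : ((j : ℝ) + 1) ≤ y := by
    have h9 : (2 : ℝ) ^ (j + 1) ≤ y := by
      rw [hy]
      have h10 : ((2 : ℝ) ^ (j + 1)) = (((2 : ℝ) ^ ((j + 1) ^ 2)) ^ (1 / ((j : ℝ) + 1))) := by
        rw [← Real.rpow_natCast, ← Real.rpow_natCast, ← Real.rpow_mul (by norm_num)]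
        congr 1
        push_cast
        field_simp
      rw [h10]
      apply Real.rpow_le_rpow (by positivity) _ (by positivity)
      exact_mod_cast h4
    have h11 : ((j + 1 : ℕ) : ℝ) ≤ (2 : ℝ) ^ (j + 1) := by
      exact_mod_cast (Nat.lt_two_pow_self (n := j + 1)).le
    push_cast at h11
    linarith
  have h12 : (J : ℝ) ≤ j := by exact_mod_cast hjJ
  linarith

/-- a largest order gives a pair with polynomial growth -/
theorem dichotomy (g : ℕ → ℝ) (hg : ∀ n, 0 ≤ g n)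
    (h : ∀ A B : Set ℕ, Admissible A B → ∃ C : ℝ, ∀ᶠ n : ℕ in atTop, (S A B n : ℝ) ≤ C * g n)
    (h' : ∃ A B : Set ℕ, Admissible A B ∧ ∃ C : ℝ, ∀ᶠ n : ℕ in atTop, g n ≤ C * S A B n) :
    ∃ A B : Set ℕ, Admissible A B ∧ ∃ c : ℝ, 0 < c ∧ ∀ᶠ n : ℕ in atTop, (n : ℝ) ^ c ≤ S A B n := by
  obtain ⟨c, hc, hcg⟩ := upper_order g hg h
  obtain ⟨A, B, hAB, C, hC⟩ := h'
  refine ⟨A, B, hAB, c / 2, by linarith, ?_⟩
  have h1 : Tendsto (fun n : ℕ => (n : ℝ) ^ (c / 2)) atTop atTop :=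
    (tendsto_rpow_atTop (by linarith)).comp tendsto_natCast_atTop_atTop
  filter_upwards [hcg, hC, h1.eventually_ge_atTop (|C| + 1), eventually_gt_atTop 0] with n hn1 hn2 hn3 hn4
  have hn0 : (0 : ℝ) < n := by exact_mod_cast hn4
  set y := (n : ℝ) ^ (c / 2) with hy
  have h2 : (n : ℝ) ^ c = y * y := by
    rw [hy, ← Real.rpow_add hn0]
    congr 1
    ring
  have hS0 : (0 : ℝ) ≤ S A B n := Nat.cast_nonneg _
  have h3 : y * y ≤ y * S A B n := by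
    rw [← h2]
    calc (n : ℝ) ^ c ≤ C * S A B n := hn1.trans hn2
      _ ≤ (|C| + 1) * S A B n := by
          apply mul_le_mul_of_nonneg_right _ hS0
          have := le_abs_self C
          linarith
      _ ≤ y * S A B n := mul_le_mul_of_nonneg_right hn3 hS0
  have hy0 : 0 < y := by
    have := abs_nonneg C
    linarith
  exact le_of_mul_le_mul_left h3 hy0

end Pool.Agent.TH847.SC
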