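import Pool.Agent.TH847.SC.OpA2
import Pool.Agent.TH847.SC.Seq

/-!
Pairwise coprime sumsets with a prescribed order of growth: the finite stages.
-/

set_option autoImplicit false

open Finset Filter Topology

namespace Pool.Agent.TH847.SC

/-- functions below every root of `2 ^ i` -/
def SE (u : ℕ → ℕ) : Prop := ∀ E : ℕ, ∀ᶠ i : ℕ in atTop, u i ^ E ≤ 2 ^ i

lemma SE.mul {u v : ℕ → ℕ} (hu : SE u) (hv : SE v) : SE (fun i => u i * v i) := by
  intro E
  filter_upwards [hu (E * 2), hv (E * 2)] with i h1 h2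
  have h3 : ((u i * v i) ^ E) ^ 2 ≤ (2 ^ i) ^ 2 := by
    calc ((u i * v i) ^ E) ^ 2 = u i ^ (E * 2) * v i ^ (E * 2) := by rw [← pow_mul, mul_pow]
      _ ≤ 2 ^ i * 2 ^ i := Nat.mul_le_mul h1 h2
      _ = (2 ^ i) ^ 2 := (sq _).symm
  exact (Nat.pow_le_pow_iff_left (by norm_num)).1 h3

lemma SE.mono {u v : ℕ → ℕ} (hv : SE v) (h : ∀ᶠ i in atTop, u i ≤ v i) : SE u := by
  intro E
  filter_upwards [hv E, h] with i h1 h2
  exact (Nat.pow_le_pow_left h2 E).trans h1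

lemma SE.const (c : ℕ) : SE (fun _ => c) := by
  intro E
  filter_upwards [eventually_ge_atTop (c ^ E)] with i hi
  have : i < 2 ^ i := Nat.lt_two_pow_self
  omega

lemma SE.id : SE (fun i => i) := by
  intro E
  have h := tendsto_pow_const_div_const_pow_of_one_lt E (show (1 : ℝ) < 2 by norm_num)
  filter_upwards [h.eventually_lt_const (show (0 : ℝ) < 1 by norm_num)] with i hi
  rw [div_lt_one (by positivity)] at hi
  exact_mod_cast hi.le

lemma SE.id_add (c : ℕ) : SE (fun i => i + c) := by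
  apply ((SE.const 2).mul SE.id).mono
  filter_upwards [eventually_ge_atTop c] with i hi
  omega

/-- the size of the next element of the first set, as an exponent of two -/
def HH (k G i : ℕ) : ℕ := (i + 1) * ((k * G + G * G) * (i + 1) + (k + 2)) + i + 2

lemma SE.HH {G : ℕ → ℕ} (hG : SE G) (k : ℕ) : SE (fun i => HH k (G i) i) := by
  have hG1 : SE (fun i => G i + 1) := by
    intro E
    filter_upwards [hG (E * 2), (SE.const 2) (E * 2)] with i h1 h2
    rcases Nat.eq_zero_or_pos (G i) with h0 | h0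
    · rw [h0]
      simp [Nat.one_le_two_pow]
    · have h3 : G i + 1 ≤ 2 * G i := by omega
      have h4 : ((2 * G i) ^ E) ^ 2 ≤ (2 ^ i) ^ 2 := by
        calc ((2 * G i) ^ E) ^ 2 = 2 ^ (E * 2) * G i ^ (E * 2) := by rw [← pow_mul, mul_pow]
          _ ≤ 2 ^ i * 2 ^ i := Nat.mul_le_mul h2 h1
          _ = (2 ^ i) ^ 2 := (sq _).symm
      exact (Nat.pow_le_pow_left h3 E).trans ((Nat.pow_le_pow_iff_left (by norm_num)).1 h4)
  apply (((SE.id_add 2).mul (SE.id_add 2)).mul ((SE.const (k + 3)).mul (hG1.mul hG1))).mono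
  filter_upwards with i
  unfold Pool.Agent.TH847.SC.HH
  have e1 : (i + 1) * ((k * G i + G i * G i) * (i + 1) + (k + 2)) + i + 2 ≤
      (i + 2) * (i + 2) * (k * G i + G i * G i + (k + 3)) := by
    have f1 : (i + 1) * (i + 1) ≤ (i + 2) * (i + 2) := Nat.mul_le_mul (by omega) (by omega)
    have f2 : (k * G i + G i * G i) * ((i + 1) * (i + 1)) ≤ (k * G i + G i * G i) * ((i + 2) * (i + 2)) :=
      Nat.mul_le_mul_left _ f1
    have f3 : (i + 1) * (k + 2) ≤ (i + 2) * (i + 2) * (k + 2) :=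
      Nat.mul_le_mul_right _ (by nlinarith)
    nlinarith
  have e2 : k * G i + G i * G i + (k + 3) ≤ (k + 3) * ((G i + 1) * (G i + 1)) := by nlinarith
  exact e1.trans (Nat.mul_le_mul_left _ e2)

/-- the state at the dyadic scale `i` -/
def Good2 (F : ℕ → ℝ) (C : ℝ) (E k i : ℕ) (A B : Finset ℕ) : Prop := A.card = k ∧ 0 ∈ A ∧ Adm A ∧
  PC A B ∧ (∀ b ∈ B, 1 ≤ b ∧ b ≤ 2 ^ i) ∧ (∃ T, (∀ a ∈ A, a ≤ 2 ^ T) ∧ T ^ E ≤ 2 ^ i) ∧
  (k : ℝ) * B.card ≤ 2 * F i ∧ F i ≤ 2 * C * (k * B.card)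

/-- the property of the constants that the dyadic step needs -/
def SD (k E I0 : ℕ) : Prop := ∀ (A B : Finset ℕ) (i t T : ℕ), I0 ≤ i →
    A.card = k → Adm A → PC A B → (∀ b ∈ B, 1 ≤ b ∧ b ≤ 2 ^ i) → B.card + t ≤ T →
    (∀ a ∈ A, a ≤ 2 ^ T) → T ^ E ≤ 2 ^ i →
    ∃ B', B ⊆ B' ∧ B'.card = B.card + t ∧ (∀ b ∈ B', 1 ≤ b ∧ b ≤ 2 ^ (i + 1)) ∧
      (∀ b ∈ B', b ∉ B → 2 ^ i < b) ∧ PC A B'

/-- the bound for the second set -/
noncomputable def GG (F : ℕ → ℝ) (i : ℕ) : ℕ := ⌈2 * F i⌉₊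

/-- beyond `I` the scale is large enough -/
def Big (F : ℕ → ℝ) (k E I0 I : ℕ) : Prop := ∀ i, I ≤ i → I0 ≤ i ∧ (GG F i) ^ E ≤ 2 ^ i ∧ (k : ℝ) ≤ F i

lemma cnt_eq {B B' : Finset ℕ} {X n : ℕ} (h : B ⊆ B') (hn : n ≤ X) (hX : ∀ b ∈ B', b ∉ B → X < b) :
    cnt B' n = cnt B n := by
  unfold cnt
  congr 1
  ext b
  rw [mem_filter, mem_filter]
  constructor
  · rintro ⟨h1, h2⟩
    refine ⟨?_, h2⟩
    by_contra h3
    have := hX b h1 h3
    omega
  · rintro ⟨h1, h2⟩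
    exact ⟨h h1, h2⟩

lemma floor_half {y : ℝ} (hy : 1 ≤ y) : y ≤ 2 * (⌊y⌋₊ : ℝ) := by
  have h1 := Nat.lt_floor_add_one y
  have h2 : 1 ≤ ⌊y⌋₊ := Nat.le_floor (by exact_mod_cast hy)
  have h3 : (1 : ℝ) ≤ (⌊y⌋₊ : ℝ) := by exact_mod_cast h2
  linarith

variable {F : ℕ → ℝ} {C : ℝ}

/-- the next dyadic scale -/
lemma same2 (hF : Monotone F) (hC : 1 ≤ C) (hFC : ∀ i, F (i + 1) ≤ C * F i) {k E I0 I : ℕ} (hk : 1 ≤ k)
    (h : SD k E I0) (hI : Big F k E I0 I) {i : ℕ} (hi : I ≤ i) {A B : Finset ℕ}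
    (hG : Good2 F C E k i A B) : ∃ B', B ⊆ B' ∧ Good2 F C E k (i + 1) A B' ∧
      (∀ b ∈ B', b ∉ B → 2 ^ i < b) ∧ (k : ℝ) * B'.card ≤ max ((k : ℝ) * B.card) (F i) := by
  obtain ⟨h1, h2, h3, h4, h5, ⟨TA, h6, h6'⟩, h7, h8⟩ := hG
  obtain ⟨hi0, hGE, hkF⟩ := hI i hi
  have hk' : (1 : ℝ) ≤ k := by exact_mod_cast hk
  have hk0 : (0 : ℝ) < k := by linarith
  have hF0 : 0 < F i := by linarith
  set m := ⌊F i / k⌋₊ with hm
  have hmF : (k : ℝ) * m ≤ F i := by
    have := Nat.floor_le (show 0 ≤ F i / k by positivity)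
    rw [le_div_iff₀ hk0] at this
    rw [mul_comm]
    exact this
  have hmL : F i ≤ 2 * (k * m) := by
    have h9 := floor_half (y := F i / k) (by rw [le_div_iff₀ hk0]; linarith)
    rw [div_le_iff₀ hk0] at h9
    linarith
  have hGG : 2 * F i ≤ (GG F i : ℝ) := Nat.le_ceil _
  have hBm : ((max B.card m : ℕ) : ℝ) * k ≤ max ((k : ℝ) * B.card) (F i) := by
    rcases le_total B.card m with h9 | h9
    · rw [max_eq_right h9]
      exact le_max_of_le_right (by linarith)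
    · rw [max_eq_left h9]
      exact le_max_of_le_left (by rw [mul_comm])
  have hcard : B.card + (m - B.card) = max B.card m := by omega
  have hTG : max B.card m ≤ GG F i := by
    have h10 : ((max B.card m : ℕ) : ℝ) ≤ (GG F i : ℝ) := by
      have h11 : ((max B.card m : ℕ) : ℝ) ≤ ((max B.card m : ℕ) : ℝ) * k :=
        le_mul_of_one_le_right (Nat.cast_nonneg _) hk'
      have h12 : max ((k : ℝ) * B.card) (F i) ≤ 2 * F i := max_le h7 (by linarith)
      linarith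
    exact_mod_cast h10
  obtain ⟨B', e1, e2, e3, e4, e5⟩ := h A B i (m - B.card) (max TA (GG F i)) hi0 h1 h3 h4 h5
    (by rw [hcard]; exact hTG.trans (le_max_right _ _))
    (fun a ha => (h6 a ha).trans (Nat.pow_le_pow_right (by norm_num) (le_max_left _ _)))
    (by
      rcases le_total TA (GG F i) with h9 | h9
      · rw [max_eq_right h9]; exact hGE
      · rw [max_eq_left h9]; exact h6')
  rw [hcard] at e2
  have hFi := hF (Nat.le_succ i)
  rw [Nat.succ_eq_add_one] at hFi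
  refine ⟨B', e1, ⟨h1, h2, h3, e5, e3, ⟨TA, h6, h6'.trans (Nat.pow_le_pow_right (by norm_num) (by omega))⟩,
    ?_, ?_⟩, e4, ?_⟩
  · rw [e2, mul_comm]
    refine hBm.trans (max_le (by linarith) (by linarith))
  · rw [e2]
    have h9 : (m : ℝ) ≤ ((max B.card m : ℕ) : ℝ) := by exact_mod_cast le_max_right _ _
    have h10 : (k : ℝ) * m ≤ k * ((max B.card m : ℕ) : ℝ) := mul_le_mul_of_nonneg_left h9 hk0.le
    calc F (i + 1) ≤ C * F i := hFC i
      _ ≤ C * (2 * (k * m)) := mul_le_mul_of_nonneg_left hmL (by linarith)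
      _ ≤ C * (2 * (k * ((max B.card m : ℕ) : ℝ))) :=
          mul_le_mul_of_nonneg_left (by linarith) (by linarith)
      _ = _ := by ring
  · rw [e2, mul_comm]
    exact hBm

/-- many dyadic scales -/
lemma run2 (hF : Monotone F) (hC : 1 ≤ C) (hFC : ∀ i, F (i + 1) ≤ C * F i) {k E I0 I : ℕ} (hk : 1 ≤ k)
    (h : SD k E I0) (hI : Big F k E I0 I) {i : ℕ} (hi : I ≤ i) {A B : Finset ℕ}
    (hG : Good2 F C E k i A B) (m : ℕ) : ∃ B', B ⊆ B' ∧ Good2 F C E k (i + m) A B' ∧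
      (∀ b ∈ B', b ∉ B → 2 ^ i < b) ∧ (k : ℝ) * B'.card ≤ max ((k : ℝ) * B.card) (F (i + m)) ∧
      ∀ j, i ≤ j → j ≤ i + m → (k : ℝ) * cnt B' (2 ^ j) ≤ 2 * F j ∧ F j ≤ 2 * C * (k * cnt B' (2 ^ j)) := by
  induction m with
  | zero =>
    refine ⟨B, Subset.refl _, hG, fun b hb hb' => absurd hb hb', le_max_left _ _, fun j hj1 hj2 => ?_⟩
    obtain ⟨h1, h2, h3, h4, h5, _, h7, h8⟩ := hG
    have hj : j = i := by omega
    subst hj
    rw [cnt_full fun b hb => (h5 b hb).2]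
    exact ⟨h7, h8⟩
  | succ m ih =>
    obtain ⟨B', e1, e2, e3, e4, e5⟩ := ih
    obtain ⟨B'', f1, f2, f3, f4⟩ := same2 hF hC hFC hk h hI (show I ≤ i + m by omega) e2
    refine ⟨B'', e1.trans f1, f2, ?_, ?_, ?_⟩
    · intro b hb hb'
      by_cases hbB : b ∈ B'
      · exact e3 b hbB hb'
      · have g1 := f3 b hb hbB
        have g2 : 2 ^ i ≤ 2 ^ (i + m) := Nat.pow_le_pow_right (by norm_num) (by omega)
        omega
    · have g1 : F (i + m) ≤ F (i + (m + 1)) := hF (by omega)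
      refine f4.trans (max_le (e4.trans (max_le_max le_rfl g1)) (le_max_of_le_right g1))
    · intro j hj1 hj2
      rcases Nat.lt_or_ge (i + m) j with hlt | hle
      · have hj : j = i + m + 1 := by omega
        obtain ⟨h1, h2, h3, h4, h5, _, h7, h8⟩ := f2
        rw [hj, cnt_full fun b hb => (h5 b hb).2]
        exact ⟨h7, h8⟩
      · rw [cnt_eq f1 (Nat.pow_le_pow_right (by norm_num) hle : 2 ^ j ≤ 2 ^ (i + m)) f3]
        exact e5 j hj1 hle

/-- a new element of the first set -/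
lemma up2 (hC : 1 ≤ C) {k E E' i : ℕ} (hk : 2 ≤ k) {A B : Finset ℕ} (hG : Good2 F C E k i A B)
    (hA : ∀ a ∈ A, a ≤ 2 ^ i) (hkB : (k : ℝ) * B.card ≤ F i) (hki : k ≤ i)
    (hH : (HH k (GG F i) i) ^ E' ≤ 2 ^ i) :
    ∃ a', 2 ^ (i + 1) < a' ∧ a' ∉ A ∧ Good2 F C E' (k + 1) i (insert a' A) B := by
  classical
  obtain ⟨h1, h2, h3, h4, h5, _, h7, h8⟩ := hG
  obtain ⟨a2, ha2, hne⟩ : ∃ a2 ∈ A, a2 ≠ 0 := by
    by_contra hcon
    push Not at hcon
    have e1 : A ⊆ {0} := fun a ha => mem_singleton.2 (hcon a ha)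
    have e2 := card_le_card e1
    rw [card_singleton] at e2
    omega
  have h2i : 2 ^ (i + 1) = 2 ^ i + 2 ^ i := by rw [pow_succ]; ring
  have hii : i < 2 ^ i := Nat.lt_two_pow_self
  obtain ⟨a', g1, g2, g3, g4⟩ := opA2 A B 0 a2 (i + 1) (2 ^ (i + 1)) h2 ha2 (Ne.symm hne) h4 h3
    (fun a ha b hb => by
      have e1 := h5 b hb
      have e2 := hA a ha
      exact ⟨by omega, by omega⟩)
    (fun b hb => by have e1 := h5 b hb; omega) (by omega)
  have hk' : (2 : ℝ) ≤ k := by exact_mod_cast hk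
  have hBG : B.card ≤ GG F i := by
    have e1 : (B.card : ℝ) ≤ (GG F i : ℝ) := by
      have e2 : (B.card : ℝ) ≤ (k : ℝ) * B.card := le_mul_of_one_le_left (Nat.cast_nonneg _) (by linarith)
      have e3 : 2 * F i ≤ (GG F i : ℝ) := Nat.le_ceil _
      linarith
    exact_mod_cast e1
  have ha'A : a' ∉ A := fun ha => by
    have := hA a' ha
    omega
  refine ⟨a', g1, ha'A, by rw [card_insert_of_notMem ha'A, h1], mem_insert_of_mem h2, g4, g3, h5,
    ⟨HH k (GG F i) i, ?_, hH⟩, ?_, ?_⟩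
  · intro a ha
    rw [mem_insert] at ha
    rcases ha with rfl | ha
    · rw [h1] at g2
      set M := (i + 1) * ((k * GG F i + GG F i * GG F i) * (i + 1) + (k + 2)) with hM
      have e1 : (i + 1) * ((k * B.card + B.card * B.card) * (i + 1) + (k + 2)) ≤ M := by
        rw [hM]
        apply Nat.mul_le_mul_left
        apply Nat.add_le_add_right
        apply Nat.mul_le_mul_right
        exact add_le_add (Nat.mul_le_mul_left _ hBG) (Nat.mul_le_mul hBG hBG)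
      have e2 : 2 ^ ((i + 1) * ((k * B.card + B.card * B.card) * (i + 1) + (k + 2))) ≤ 2 ^ M :=
        Nat.pow_le_pow_right (by norm_num) e1
      have e3 : 2 ^ (i + 1) ≤ 2 ^ (M + i + 1) := Nat.pow_le_pow_right (by norm_num) (by omega)
      have e4 : 2 ^ M ≤ 2 ^ (M + i + 1) := Nat.pow_le_pow_right (by norm_num) (by omega)
      have e5 : 2 ^ HH k (GG F i) i = 2 ^ (M + i + 1) + 2 ^ (M + i + 1) := by
        unfold HH
        rw [← hM, show M + i + 2 = M + i + 1 + 1 by ring, pow_succ]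
        ring
      omega
    · refine (hA a ha).trans (Nat.pow_le_pow_right (by norm_num) ?_)
      unfold HH
      omega
  · push_cast
    have e1 : (B.card : ℝ) ≤ (k : ℝ) * B.card := le_mul_of_one_le_left (Nat.cast_nonneg _) (by linarith)
    linarith
  · push_cast
    have e1 : (k : ℝ) * B.card ≤ ((k : ℝ) + 1) * B.card :=
      mul_le_mul_of_nonneg_right (by linarith) (Nat.cast_nonneg _)
    have e2 : 2 * C * (k * B.card) ≤ 2 * C * (((k : ℝ) + 1) * B.card) :=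
      mul_le_mul_of_nonneg_left e1 (by linarith)
    linarith

/-- a phase followed by a new element -/
theorem cycle2 (hF : Monotone F) (hFt : Tendsto F atTop atTop) (hC : 1 ≤ C)
    (hFC : ∀ i, F (i + 1) ≤ C * F i) (hGG : SE (GG F)) {k E I0 I : ℕ} (hk : 2 ≤ k)
    (h : SD k E I0) (hI : Big F k E I0 I) (E' : ℕ) {i : ℕ} (hi : I ≤ i) {A B : Finset ℕ}
    (hG : Good2 F C E k i A B) (N : ℕ) :
    ∃ i' a' B', N ≤ i' ∧ i < i' ∧ B ⊆ B' ∧ (∀ b ∈ B', b ∉ B → 2 ^ i < b) ∧ 2 ^ (i' + 1) < a' ∧ a' ∉ A ∧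
      (∀ a ∈ A, a ≤ 2 ^ i') ∧ Good2 F C E' (k + 1) i' (insert a' A) B' ∧ (k : ℝ) * k ≤ F i' ∧
      ∀ j, i ≤ j → j ≤ i' → (k : ℝ) * cnt B' (2 ^ j) ≤ 2 * F j ∧ F j ≤ 2 * C * (k * cnt B' (2 ^ j)) := by
  obtain ⟨T, hT, _⟩ := hG.2.2.2.2.2.1
  obtain ⟨i', g1, g2, g3⟩ := (((hGG.HH k) E').and
    ((hFt.eventually_ge_atTop (max ((k : ℝ) * B.card) ((k : ℝ) * k))).and
      (eventually_ge_atTop (N + i + 1 + T + k)))).exists
  obtain ⟨m, hm⟩ : ∃ m, i' = i + m := ⟨i' - i, by omega⟩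
  obtain ⟨B', e1, e2, e3, e4, e5⟩ := run2 hF hC hFC (by omega) h hI hi hG m
  rw [← hm] at e2 e4 e5
  have hA : ∀ a ∈ A, a ≤ 2 ^ i' := fun a ha =>
    (hT a ha).trans (Nat.pow_le_pow_right (by norm_num) (by omega))
  have hkB : (k : ℝ) * B'.card ≤ F i' := e4.trans (max_le ((le_max_left _ _).trans g2) le_rfl)
  obtain ⟨a', f1, f2, f3⟩ := up2 (E' := E') hC hk e2 hA hkB (by omega) g1
  exact ⟨i', a', B', by omega, by omega, e1, e3, f1, f2, hA, f3, (le_max_right _ _).trans g2, e5⟩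

/-- the first state -/
theorem start2 (hF : Monotone F) (hC : 1 ≤ C) (hFC : ∀ i, F (i + 1) ≤ C * F i) {E I0 I : ℕ}
    (h : SD 2 E I0) (hI : Big F 2 E I0 I) {i : ℕ} (hi : I ≤ i) :
    ∃ B, Good2 F C E 2 (i + 1) {0, 2} B := by
  have hAdm : Adm ({0, 2} : Finset ℕ) := by
    intro p hp
    rcases Nat.lt_or_ge 2 p with h2 | h2
    · apply avoid
      have : ({0, 2} : Finset ℕ).card = 2 := rfl
      omega
    · have hp2 : p = 2 := le_antisymm h2 hp.two_le
      subst hp2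
      refine ⟨1, fun a ha => ?_⟩
      rw [mem_insert, mem_singleton] at ha
      rcases ha with rfl | rfl <;> norm_num
  obtain ⟨hi0, hGE, hkF⟩ := hI i hi
  push_cast at hkF
  have hA : ∀ a ∈ ({0, 2} : Finset ℕ), a ≤ 2 ^ 1 := by
    intro a ha
    rw [mem_insert, mem_singleton] at ha
    rcases ha with rfl | rfl <;> omega
  set m := ⌊F i / 2⌋₊ with hm
  have hmF : (m : ℝ) * 2 ≤ F i := by
    have := Nat.floor_le (show 0 ≤ F i / 2 by linarith)
    rwa [le_div_iff₀ (by norm_num)] at this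
  have hmL : F i ≤ 2 * (2 * m) := by
    have h9 := floor_half (y := F i / 2) (by linarith)
    linarith
  have hG2 : 2 * F i ≤ (GG F i : ℝ) := Nat.le_ceil _
  have hG1 : 1 ≤ GG F i := by
    have : (1 : ℝ) ≤ (GG F i : ℝ) := by linarith
    exact_mod_cast this
  have hmG : m ≤ GG F i := by
    have : (m : ℝ) ≤ (GG F i : ℝ) := by
      have : (0 : ℝ) ≤ m := Nat.cast_nonneg m
      linarith
    exact_mod_cast this
  obtain ⟨B', e1, e2, e3, e4, e5⟩ := h {0, 2} ∅ i m (GG F i) hi0 rfl hAdm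
    (by intro a _ b hb; exact absurd hb (notMem_empty b)) (by intro b hb; exact absurd hb (notMem_empty b))
    (by rw [card_empty, Nat.zero_add]; exact hmG)
    (fun a ha => (hA a ha).trans (Nat.pow_le_pow_right (by norm_num) hG1)) hGE
  rw [card_empty, Nat.zero_add] at e2
  have hFi := hF (Nat.le_succ i)
  rw [Nat.succ_eq_add_one] at hFi
  refine ⟨B', rfl, by simp, hAdm, e5, e3, ⟨1, hA, by rw [one_pow]; exact Nat.one_le_two_pow⟩, ?_, ?_⟩
  · rw [e2]
    push_cast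
    linarith
  · rw [e2]
    push_cast
    calc F (i + 1) ≤ C * F i := hFC i
      _ ≤ C * (2 * (2 * m)) := mul_le_mul_of_nonneg_left hmL (by linarith)
      _ = _ := by ring

end Pool.Agent.TH847.SC
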