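import Pool.Agent.TH423.SH.FLIP

/-!
Pairwise coprime finite sumsets: adding an element to the first set.
-/

set_option autoImplicit false

open Finset

namespace Pool.Agent.TH847.SC

/-- the sums of `A` and `B` are pairwise coprime -/
def PC (A B : Finset ℕ) : Prop := ∀ a ∈ A, ∀ b ∈ B, ∀ a' ∈ A, ∀ b' ∈ B, (a ≠ a' ∨ b ≠ b') →
  Nat.Coprime (a + b) (a' + b')

/-- no prime forbids all classes -/
def Adm (A : Finset ℕ) : Prop := ∀ p : ℕ, p.Prime → ∃ c, ∀ a ∈ A, ¬ p ∣ c + a

/-- common prime divisors decide coprimality -/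
lemma coprime_of {m n : ℕ} (h : ∀ p : ℕ, p.Prime → p ∣ m → p ∣ n → False) : Nat.Coprime m n :=
  Nat.coprime_of_dvd fun p hp h1 h2 => h p hp h1 h2

/-- a residue class that avoids few others -/
lemma avoid (p : ℕ) (A : Finset ℕ) (h : A.card < p) : ∃ c, ∀ a ∈ A, ¬ p ∣ c + a := by
  classical
  have hp : 0 < p := by omega
  -- the forbidden classes
  set F := A.image (fun a => (p - a % p) % p) with hF
  have hFc : F.card ≤ A.card := card_image_le
  obtain ⟨c, hc, hcF⟩ : ∃ c ∈ range p, c ∉ F := by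
    by_contra hcon
    push Not at hcon
    have h1 : range p ⊆ F := fun c hc => hcon c hc
    have h2 := card_le_card h1
    rw [card_range] at h2
    omega
  refine ⟨c, fun a ha hd => hcF ?_⟩
  rw [mem_range] at hc
  rw [hF, mem_image]
  refine ⟨a, ha, ?_⟩
  have h1 : (c + a) % p = 0 := Nat.mod_eq_zero_of_dvd hd
  rw [Nat.add_mod, Nat.mod_eq_of_lt hc] at h1
  have h2 : a % p < p := Nat.mod_lt _ hp
  rcases Nat.eq_zero_or_pos (a % p) with h3 | h3
  · rw [h3, Nat.add_zero, Nat.mod_eq_of_lt hc] at h1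
    rw [h3, Nat.sub_zero, Nat.mod_self, h1]
  · have h4 : p ∣ c + a % p := Nat.dvd_of_mod_eq_zero h1
    have h5 : c + a % p = p := by
      obtain ⟨m, hm⟩ := h4
      have h6 : m < 2 := by
        by_contra h7
        have : p * 2 ≤ p * m := Nat.mul_le_mul_left _ (by omega)
        omega
      have h7 : 0 < m := Nat.pos_of_ne_zero (by rintro rfl; omega)
      have h8 : m = 1 := by omega
      rw [hm, h8, mul_one]
    rw [Nat.mod_eq_of_lt (by omega)]
    omega

/-- a representative of a class above a given bound -/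
lemma rep (Y P v : ℕ) (hPpos : 0 < P) : ∃ a', Y < a' ∧ a' ≤ Y + P ∧ a' ≡ v [MOD P] := by
  refine ⟨Y + 1 + (v + P * (Y + 1) - (Y + 1)) % P, by omega, ?_, ?_⟩
  · have := Nat.mod_lt (v + P * (Y + 1) - (Y + 1)) hPpos
    omega
  · have hle : Y + 1 ≤ P * (Y + 1) := Nat.le_mul_of_pos_left _ hPpos
    have h5 : (v + P * (Y + 1) - (Y + 1)) % P ≡ v + P * (Y + 1) - (Y + 1) [MOD P] := Nat.mod_modEq _ _
    have h6 : Y + 1 + (v + P * (Y + 1) - (Y + 1)) % P ≡ Y + 1 + (v + P * (Y + 1) - (Y + 1)) [MOD P] :=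
      h5.add_left _
    have h7 : Y + 1 + (v + P * (Y + 1) - (Y + 1)) = v + P * (Y + 1) := by omega
    rw [h7] at h6
    refine h6.trans ?_
    rw [Nat.ModEq, Nat.add_mul_mod_self_left]

/-- adding an element to the first set -/
theorem opA (A B : Finset ℕ) (a1 a2 Y : ℕ) (h1 : a1 ∈ A) (h2 : a2 ∈ A) (hne : a1 ≠ a2)
    (hPC : PC A B) (hAdm : Adm A) (hY : ∀ a ∈ A, ∀ b ∈ B, 1 ≤ a + b ∧ a + b ≤ Y)
    (hYB : ∀ b ∈ B, b ≤ Y) (hYc : A.card + 1 ≤ Y) :
    ∃ a', Y < a' ∧ a' ≤ Y + 4 ^ Y ∧ PC (insert a' A) B ∧ Adm (insert a' A) := by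
  classical
  have hch : ∀ p : ℕ, p.Prime → ∃ i ∈ A, ∀ b ∈ B, ¬ p ∣ i + b := by
    intro p hp
    by_cases hh : ∀ b ∈ B, ¬ p ∣ a1 + b
    · exact ⟨a1, h1, hh⟩
    · push Not at hh
      obtain ⟨b, hb, hd⟩ := hh
      refine ⟨a2, h2, fun b' hb' hd' => ?_⟩
      have h3 := hPC a1 h1 b hb a2 h2 b' hb' (Or.inl hne)
      have h4 := Nat.dvd_gcd hd hd'
      rw [h3] at h4
      exact hp.one_lt.ne' (Nat.dvd_one.1 h4)
  choose! i hiA hi using hch
  set T := (range (Y + 1)).filter Nat.Prime with hT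
  obtain ⟨v, hv⟩ := Pool.Agent.TH423.SH.FLIP.crt_set 1 0 (fun p => i p % p) T
    (fun p hp => ⟨(mem_filter.1 hp).2, fun h => (mem_filter.1 hp).2.one_lt.ne' (Nat.dvd_one.1 h)⟩)
    (fun p hp => Nat.mod_lt _ (mem_filter.1 hp).2.pos)
  rw [one_mul] at hv
  set P := ∏ p ∈ T, p with hP
  have hPpos : 0 < P := prod_pos fun p hp => (mem_filter.1 hp).2.pos
  have hP4 : P ≤ 4 ^ Y := primorial_le_four_pow Y
  -- a representative of the class above `Y`
  obtain ⟨a', ha1, ha2, ha3⟩ := rep Y P v hPpos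
  have hmod := ((hv a').2 ha3).2
  have hcong : ∀ p, p.Prime → p ≤ Y → a' ≡ i p [MOD p] := by
    intro p hp hpY
    exact hmod p (mem_filter.2 ⟨mem_range.2 (by omega), hp⟩)
  have hrough : ∀ p : ℕ, p.Prime → p ≤ Y → ∀ b ∈ B, ¬ p ∣ a' + b := by
    intro p hp hpY b hb hd
    apply hi p hp b hb
    exact ((hcong p hp hpY).add_right b).dvd_iff dvd_rfl |>.1 hd
  refine ⟨a', ha1, ha2.trans (by omega), ?_, ?_⟩
  · intro a ha b hb c hc d hd hor
    apply coprime_of
    intro p hp hp1 hp2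
    rw [mem_insert] at ha hc
    rcases ha with rfl | ha
    · rcases hc with rfl | hc
      · have hbd : b ≠ d := by
          rcases hor with h | h
          · exact absurd rfl h
          · exact h
        have hpY : p ≤ Y := by
          rcases Nat.lt_or_gt_of_ne hbd with h | h
          · have h4 := Nat.dvd_sub hp2 hp1
            rw [Nat.add_sub_add_left] at h4
            exact (Nat.le_of_dvd (by omega) h4).trans ((Nat.sub_le _ _).trans (hYB d hd))
          · have h4 := Nat.dvd_sub hp1 hp2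
            rw [Nat.add_sub_add_left] at h4
            exact (Nat.le_of_dvd (by omega) h4).trans ((Nat.sub_le _ _).trans (hYB b hb))
        exact hrough p hp hpY b hb hp1
      · have hpY : p ≤ Y := (Nat.le_of_dvd (hY c hc d hd).1 hp2).trans (hY c hc d hd).2
        exact hrough p hp hpY b hb hp1
    · rcases hc with rfl | hc
      · have hpY : p ≤ Y := (Nat.le_of_dvd (hY a ha b hb).1 hp1).trans (hY a ha b hb).2
        exact hrough p hp hpY d hd hp2
      · have h3 := hPC a ha b hb c hc d hd hor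
        have h4 := Nat.dvd_gcd hp1 hp2
        rw [h3] at h4
        exact hp.one_lt.ne' (Nat.dvd_one.1 h4)
  · intro p hp
    by_cases hpY : p ≤ Y
    · obtain ⟨c, hc⟩ := hAdm p hp
      refine ⟨c, fun a ha hd => ?_⟩
      rw [mem_insert] at ha
      rcases ha with rfl | ha
      · exact hc (i p) (hiA p hp) (((hcong p hp hpY).add_left c).dvd_iff dvd_rfl |>.1 hd)
      · exact hc a ha hd
    · apply avoid
      have := card_insert_le a' A
      omega

end Pool.Agent.TH847.SC
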