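import Pool.Agent.TH847.SC.Step

/-!
Pairwise coprime finite sumsets: a short new element of the first set, and elements of the second set in a
dyadic interval.
-/

set_option autoImplicit false

open Finset

namespace Pool.Agent.TH847.SC

/-- adding an element to the first set, with a bound -/
theorem opA2 (A B : Finset ℕ) (a1 a2 L X : ℕ) (h1 : a1 ∈ A) (h2 : a2 ∈ A) (hne : a1 ≠ a2)
    (hPC : PC A B) (hAdm : Adm A) (hL : ∀ a ∈ A, ∀ b ∈ B, 1 ≤ a + b ∧ a + b ≤ 2 ^ L)
    (hLB : ∀ b ∈ B, b ≤ 2 ^ L) (hLc : A.card + 1 ≤ 2 ^ L) :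
    ∃ a', X < a' ∧ a' ≤ X + 2 ^ (L * ((A.card * B.card + B.card * B.card) * L + (A.card + 2))) ∧
      PC (insert a' A) B ∧ Adm (insert a' A) := by
  classical
  have hch : ∀ p : ℕ, p.Prime → ∃ i ∈ A, ∀ b ∈ B, ¬ p ∣ i + b := by
    intro p hp
    by_cases hh : ∀ b ∈ B, ¬ p ∣ a1 + b
    · exact ⟨a1, h1, hh⟩
    · push Not at hh
      obtain ⟨b, hb, hd⟩ := hh
      refine ⟨a2, h2, fun b' hb' hd' => ?_⟩
      have h3 := hPC a1 h1 b hb a2 h2 b' hb' (Or.inl hne)
      have h4 := Nat.dvd_gcd hd hd'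
      rw [h3] at h4
      exact hp.one_lt.ne' (Nat.dvd_one.1 h4)
  choose! i hiA hi using hch
  set T1 : Finset ℕ := (A ×ˢ B).biUnion (fun q => (q.1 + q.2).primeFactors) with hT1
  set T2 : Finset ℕ := (B ×ˢ B).biUnion (fun q => (q.1 - q.2).primeFactors) with hT2
  set T3 : Finset ℕ := (range (A.card + 2)).filter Nat.Prime with hT3
  set T := (T1 ∪ T2) ∪ T3 with hT
  have hTp : ∀ p ∈ T, p.Prime ∧ p ≤ 2 ^ L := by
    intro p hp
    rw [hT, mem_union, mem_union, hT1, hT2, hT3, mem_biUnion, mem_biUnion, mem_filter, mem_range] at hp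
    rcases hp with (⟨q, hq, h⟩ | ⟨q, hq, h⟩) | ⟨h, h'⟩
    · rw [mem_product] at hq
      have h3 := hL q.1 hq.1 q.2 hq.2
      exact ⟨Nat.prime_of_mem_primeFactors h, (Nat.le_of_mem_primeFactors h).trans h3.2⟩
    · rw [mem_product] at hq
      exact ⟨Nat.prime_of_mem_primeFactors h,
        (Nat.le_of_mem_primeFactors h).trans ((Nat.sub_le _ _).trans (hLB q.1 hq.1))⟩
    · exact ⟨h', by omega⟩
  have hTc : T.card ≤ (A.card * B.card + B.card * B.card) * L + (A.card + 2) := by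
    have e1 : T1.card ≤ (A ×ˢ B).card * L := card_biUnion_le_card_mul _ _ _ fun q hq => pf_card (by
      rw [mem_product] at hq
      exact (hL q.1 hq.1 q.2 hq.2).2)
    have e2 : T2.card ≤ (B ×ˢ B).card * L := card_biUnion_le_card_mul _ _ _ fun q hq => pf_card (by
      rw [mem_product] at hq
      exact (Nat.sub_le _ _).trans (hLB q.1 hq.1))
    have e3 : T3.card ≤ A.card + 2 := by
      calc T3.card ≤ (range (A.card + 2)).card := card_filter_le _ _
        _ = A.card + 2 := card_range _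
    rw [card_product] at e1 e2
    calc T.card ≤ (T1 ∪ T2).card + T3.card := card_union_le _ _
      _ ≤ (T1.card + T2.card) + T3.card := add_le_add (card_union_le _ _) le_rfl
      _ ≤ (A.card * B.card * L + B.card * B.card * L) + (A.card + 2) := by omega
      _ = _ := by ring
  obtain ⟨v, hv⟩ := Pool.Agent.TH423.SH.FLIP.crt_set 1 0 (fun p => i p % p) T
    (fun p hp => ⟨(hTp p hp).1, fun h => (hTp p hp).1.one_lt.ne' (Nat.dvd_one.1 h)⟩)
    (fun p hp => Nat.mod_lt _ (hTp p hp).1.pos)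
  rw [one_mul] at hv
  set P := ∏ p ∈ T, p with hP
  have hPpos : 0 < P := prod_pos fun p hp => (hTp p hp).1.pos
  have hPle : P ≤ 2 ^ (L * ((A.card * B.card + B.card * B.card) * L + (A.card + 2))) := by
    calc P ≤ ∏ _p ∈ T, 2 ^ L := prod_le_prod' fun p hp => (hTp p hp).2
      _ = 2 ^ (L * T.card) := by rw [prod_const, ← pow_mul]
      _ ≤ _ := Nat.pow_le_pow_right (by norm_num) (Nat.mul_le_mul_left _ hTc)
  obtain ⟨a', ha1, ha2, ha3⟩ := rep X P v hPpos
  have hmod := ((hv a').2 ha3).2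
  have hcong : ∀ p ∈ T, a' ≡ i p [MOD p] := fun p hp => hmod p hp
  have hno : ∀ p ∈ T, ∀ b ∈ B, ¬ p ∣ a' + b := by
    intro p hp b hb hd
    apply hi p (hTp p hp).1 b hb
    exact ((hcong p hp).add_right b).dvd_iff dvd_rfl |>.1 hd
  have hold : ∀ p : ℕ, p.Prime → ∀ a ∈ A, ∀ b ∈ B, p ∣ a + b → ∀ b' ∈ B, ¬ p ∣ a' + b' := by
    intro p hp a ha b hb hd b' hb'
    apply hno p _ b' hb'
    rw [hT, mem_union, mem_union, hT1, mem_biUnion]
    refine Or.inl (Or.inl ⟨(a, b), mem_product.2 ⟨ha, hb⟩, ?_⟩)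
    rw [Nat.mem_primeFactors]
    have := (hL a ha b hb).1
    exact ⟨hp, hd, by omega⟩
  have hnew : ∀ p : ℕ, p.Prime → ∀ b ∈ B, ∀ b' ∈ B, b' < b → p ∣ a' + b → p ∣ a' + b' → False := by
    intro p hp b hb b' hb' hlt hd hd'
    apply hno p _ b hb hd
    rw [hT, mem_union, mem_union, hT2, mem_biUnion]
    rw [mem_biUnion]
    refine Or.inl (Or.inr ⟨(b, b'), mem_product.2 ⟨hb, hb'⟩, ?_⟩)
    rw [Nat.mem_primeFactors]
    have h3 := Nat.dvd_sub hd hd'
    rw [Nat.add_sub_add_left] at h3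
    refine ⟨hp, h3, ?_⟩
    show b - b' ≠ 0
    omega
  refine ⟨a', ha1, ha2.trans (by omega), ?_, ?_⟩
  · intro a ha b hb c hc d hd hor
    apply coprime_of
    intro p hp hp1 hp2
    rw [mem_insert] at ha hc
    rcases ha with rfl | ha
    · rcases hc with rfl | hc
      · have hbd : b ≠ d := by
          rcases hor with h | h
          · exact absurd rfl h
          · exact h
        rcases Nat.lt_or_gt_of_ne hbd with h | h
        · exact hnew p hp d hd b hb h hp2 hp1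
        · exact hnew p hp b hb d hd h hp1 hp2
      · exact hold p hp c hc d hd hp2 b hb hp1
    · rcases hc with rfl | hc
      · exact hold p hp a ha b hb hp1 d hd hp2
      · have h3 := hPC a ha b hb c hc d hd hor
        have h4 := Nat.dvd_gcd hp1 hp2
        rw [h3] at h4
        exact hp.one_lt.ne' (Nat.dvd_one.1 h4)
  · intro p hp
    by_cases hpY : p < A.card + 2
    · have hpT : p ∈ T := by
        rw [hT, mem_union, hT3]
        exact Or.inr (mem_filter.2 ⟨mem_range.2 hpY, hp⟩)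
      obtain ⟨c, hc⟩ := hAdm p hp
      refine ⟨c, fun a ha hd => ?_⟩
      rw [mem_insert] at ha
      rcases ha with rfl | ha
      · exact hc (i p) (hiA p hp) (((hcong p hpT).add_left c).dvd_iff dvd_rfl |>.1 hd)
      · exact hc a ha hd
    · apply avoid
      have := card_insert_le a' A
      omega

/-- many more elements, all beyond `X` -/
lemma addMany2 {k r J0 : ℕ} (hOB : OB k r J0) (A B : Finset ℕ) (hA : A.card = k) (hAdm : Adm A)
    (hPC : PC A B) (J L X m : ℕ) (hJ : J0 ≤ J) (hAL : ∀ a ∈ A, a ≤ 2 ^ L)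
    (hB : ∀ b ∈ B, 1 ≤ b ∧ b ≤ X)
    (hBL : ∀ a ∈ A, a + (X + m * (2 ^ 2 ^ J) ^ r) ≤ 2 ^ L)
    (hQ : (k * (B.card + m) + k * k) * L ≤ 2 ^ 2 ^ (J - 1)) :
    ∃ B', B ⊆ B' ∧ B'.card = B.card + m ∧ (∀ b ∈ B', 1 ≤ b ∧ b ≤ X + m * (2 ^ 2 ^ J) ^ r) ∧
      (∀ b ∈ B', b ∉ B → X < b) ∧ PC A B' := by
  classical
  have key : ∀ i, i ≤ m → ∃ B', B ⊆ B' ∧ B'.card = B.card + i ∧
      (∀ b ∈ B', 1 ≤ b ∧ b ≤ X + i * (2 ^ 2 ^ J) ^ r) ∧ (∀ b ∈ B', b ∉ B → X < b) ∧ PC A B' := by
    intro i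
    induction i with
    | zero =>
      intro _
      exact ⟨B, Subset.refl _, by omega, fun b hb => ⟨(hB b hb).1, by simpa using (hB b hb).2⟩,
        fun b hb hb' => absurd hb hb', hPC⟩
    | succ i ih =>
      intro hi
      obtain ⟨B', h1, h2, h3, h5, h4⟩ := ih (by omega)
      obtain ⟨b, hb1, hb2, hb3⟩ := addOne hOB A B' hA hAdm h4 J L (X + i * (2 ^ 2 ^ J) ^ r) hJ hAL
        (by
          intro a ha b hb
          have h5 := h3 b hb
          have h6 := hBL a ha
          have hmono : X + i * (2 ^ 2 ^ J) ^ r ≤ X + m * (2 ^ 2 ^ J) ^ r :=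
            Nat.add_le_add_left (Nat.mul_le_mul_right _ (by omega)) _
          exact ⟨by omega, by omega⟩)
        (by
          rw [h2]
          refine le_trans (Nat.mul_le_mul_right _ ?_) hQ
          have : k * (B.card + i) ≤ k * (B.card + m) := Nat.mul_le_mul_left _ (by omega)
          omega)
      have hbB : b ∉ B' := fun h => by
        have := (h3 b h).2
        omega
      refine ⟨insert b B', h1.trans (subset_insert _ _), ?_, ?_, ?_, hb3⟩
      · rw [card_insert_of_notMem hbB, h2]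
        ring
      · intro c hc
        rw [mem_insert] at hc
        have e : X + (i + 1) * (2 ^ 2 ^ J) ^ r = X + i * (2 ^ 2 ^ J) ^ r + (2 ^ 2 ^ J) ^ r := by ring
        rw [e]
        rcases hc with rfl | hc
        · exact ⟨by omega, hb2⟩
        · have := h3 c hc
          exact ⟨this.1, by omega⟩
      · intro c hc hcB
        rw [mem_insert] at hc
        rcases hc with rfl | hc
        · omega
        · exact h5 c hc hcB
  exact key m le_rfl

/-- the elements of a dyadic interval -/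
theorem stepD (k : ℕ) (hk : 1 ≤ k) : ∃ E I0 : ℕ, 1 ≤ E ∧ ∀ (A B : Finset ℕ) (i t T : ℕ), I0 ≤ i →
    A.card = k → Adm A → PC A B → (∀ b ∈ B, 1 ≤ b ∧ b ≤ 2 ^ i) → B.card + t ≤ T →
    (∀ a ∈ A, a ≤ 2 ^ T) → T ^ E ≤ 2 ^ i →
    ∃ B', B ⊆ B' ∧ B'.card = B.card + t ∧ (∀ b ∈ B', 1 ≤ b ∧ b ≤ 2 ^ (i + 1)) ∧
      (∀ b ∈ B', b ∉ B → 2 ^ i < b) ∧ PC A B' := by
  obtain ⟨r, J0, hOB⟩ := opB k hk
  set c := (k + k * k) * (16 * (r + 1) + 3) with hc
  set J1 := J0 + c + 4 with hJ1
  refine ⟨16 * (r + 1), 2 ^ (J1 + 1) * (r + 1), by omega, ?_⟩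
  intro A B i t T hi hA hAdm hPC hB hBT hAT hTE
  -- the roughness
  obtain ⟨J, hJa, hJb⟩ : ∃ J, 2 ^ J * (r + 1) ≤ i ∧ i < 2 ^ (J + 1) * (r + 1) := by
    refine ⟨Nat.log 2 (i / (r + 1)), ?_, ?_⟩
    · have hq : i / (r + 1) ≠ 0 := by
        have h1 : 1 * (r + 1) ≤ i := by
          have : 1 * (r + 1) ≤ 2 ^ (J1 + 1) * (r + 1) := Nat.mul_le_mul_right _ Nat.one_le_two_pow
          omega
        have := (Nat.le_div_iff_mul_le (by omega : 0 < r + 1)).2 h1
        omega
      calc 2 ^ Nat.log 2 (i / (r + 1)) * (r + 1) ≤ i / (r + 1) * (r + 1) :=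
            Nat.mul_le_mul_right _ (Nat.pow_log_le_self 2 hq)
        _ ≤ i := Nat.div_mul_le_self _ _
    · have h1 : i / (r + 1) < 2 ^ (Nat.log 2 (i / (r + 1)) + 1) := Nat.lt_pow_succ_log_self (by norm_num) _
      exact (Nat.div_lt_iff_lt_mul (by omega : 0 < r + 1)).1 h1
  have hJJ : J1 ≤ J := by
    by_contra hlt
    have h1 : 2 ^ (J + 1) * (r + 1) ≤ 2 ^ (J1 + 1) * (r + 1) :=
      Nat.mul_le_mul_right _ (Nat.pow_le_pow_right (by norm_num) (by omega))
    omega
  set u := 2 ^ 2 ^ (J - 3) with hu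
  have hzu : 2 ^ 2 ^ J = u ^ 8 := by
    rw [hu, ← pow_mul]
    congr 1
    rw [show (8 : ℕ) = 2 ^ 3 by norm_num, ← pow_add]
    congr 1
    omega
  have hJu : 2 ^ (J - 3) < u := Nat.lt_two_pow_self
  have hJ3 : J - 3 < 2 ^ (J - 3) := Nat.lt_two_pow_self
  have hTu : T < u := by
    have h1 : T ^ (16 * (r + 1)) < u ^ (16 * (r + 1)) := by
      calc T ^ (16 * (r + 1)) ≤ 2 ^ i := hTE
        _ < 2 ^ (2 ^ (J + 1) * (r + 1)) := Nat.pow_lt_pow_right (by norm_num) hJb
        _ = (2 ^ 2 ^ J) ^ (2 * (r + 1)) := by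
            rw [← pow_mul]
            congr 1
            rw [pow_succ]
            ring
        _ = u ^ (16 * (r + 1)) := by
            rw [hzu, ← pow_mul]
            congr 1
            ring
    exact lt_of_pow_lt_pow_left₀ _ (Nat.zero_le _) h1
  have hu1 : 1 ≤ u := Nat.one_le_two_pow
  have hi2 : i < 16 * (r + 1) * u := by
    calc i < 2 ^ (J + 1) * (r + 1) := hJb
      _ = 16 * (r + 1) * 2 ^ (J - 3) := by
          have : 2 ^ (J + 1) = 16 * 2 ^ (J - 3) := by
            rw [show (16 : ℕ) = 2 ^ 4 by norm_num, ← pow_add]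
            congr 1
            omega
          rw [this]
          ring
      _ ≤ 16 * (r + 1) * u := Nat.mul_le_mul_left _ hJu.le
  set L := T + i + 2 with hL
  have hzr : t * (2 ^ 2 ^ J) ^ r ≤ 2 ^ i := by
    calc t * (2 ^ 2 ^ J) ^ r ≤ 2 ^ 2 ^ J * (2 ^ 2 ^ J) ^ r := by
          apply Nat.mul_le_mul_right
          have : u ≤ 2 ^ 2 ^ J := by
            rw [hzu]
            exact Nat.le_self_pow (by norm_num) u
          omega
      _ = 2 ^ (2 ^ J * (r + 1)) := by rw [← pow_mul, ← pow_add]; congr 1; ring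
      _ ≤ 2 ^ i := Nat.pow_le_pow_right (by norm_num) hJa
  have h2i : 2 ^ (i + 1) = 2 ^ i + 2 ^ i := by rw [pow_succ]; ring
  have hLle : 2 ^ T + 2 ^ (i + 1) ≤ 2 ^ L := by
    have e1 : 2 ^ T ≤ 2 ^ (T + i + 1) := Nat.pow_le_pow_right (by norm_num) (by omega)
    have e2 : 2 ^ (i + 1) ≤ 2 ^ (T + i + 1) := Nat.pow_le_pow_right (by norm_num) (by omega)
    have e3 : 2 ^ L = 2 ^ (T + i + 1) + 2 ^ (T + i + 1) := by
      rw [hL, show T + i + 2 = T + i + 1 + 1 by ring, pow_succ]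
      ring
    omega
  obtain ⟨B', e1, e2, e3, e4, e5⟩ := addMany2 hOB A B hA hAdm hPC J L (2 ^ i) t (by omega)
    (fun a ha => (hAT a ha).trans (by omega)) hB
    (by
      intro a ha
      have := hAT a ha
      omega)
    (by
      have f1 : k * (B.card + t) + k * k ≤ (k + k * k) * u := by
        have g1 : k * (B.card + t) ≤ k * u := Nat.mul_le_mul_left _ (by omega)
        have g2 : k * k ≤ k * k * u := Nat.le_mul_of_pos_right _ hu1
        have g3 : (k + k * k) * u = k * u + k * k * u := by ring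
        omega
      have f2 : L ≤ (16 * (r + 1) + 3) * u := by
        have g3 : (16 * (r + 1) + 3) * u = 16 * (r + 1) * u + 3 * u := by ring
        omega
      have hcu : c ≤ u * u := by
        calc c ≤ u := by omega
          _ ≤ u * u := Nat.le_mul_of_pos_left _ hu1
      calc (k * (B.card + t) + k * k) * L ≤ ((k + k * k) * u) * ((16 * (r + 1) + 3) * u) :=
            Nat.mul_le_mul f1 f2
        _ = c * (u * u) := by rw [hc]; ring
        _ ≤ (u * u) * (u * u) := Nat.mul_le_mul_right _ hcu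
        _ = 2 ^ 2 ^ (J - 1) := by
            rw [hu, ← pow_add, ← pow_add]
            congr 1
            have : 2 ^ (J - 1) = 4 * 2 ^ (J - 3) := by
              rw [show (4 : ℕ) = 2 ^ 2 by norm_num, ← pow_add]
              congr 1
              omega
            omega)
  exact ⟨B', e1, e2, fun b hb => ⟨(e3 b hb).1, by have := (e3 b hb).2; omega⟩, e4, e5⟩

end Pool.Agent.TH847.SC
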