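import Pool.Agent.TH847.SC.OpA
import Pool.Agent.TH847.TP.Main
import Pool.Agent.TH847.TP.Low
import Pool.Agent.Helper256.KM.Mertens

/-!
Pairwise coprime finite sumsets: an element for the second set.
-/

set_option autoImplicit false

open Finset

namespace Pool.Agent.TH847.SC

open Pool.Agent.TH847.TP

/-- the sifted product over a range of primes is at least a power of the logarithm -/
lemma V_low (k : ℕ) : ∃ D : ℕ, 1 ≤ D ∧ ∀ (J z0 : ℕ) (P : Finset ℕ) (ρ : ℕ → ℕ), 1 ≤ J → 2 * k ≤ z0 →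
    (∀ p ∈ P, p.Prime ∧ z0 < p ∧ p ≤ 2 ^ 2 ^ J) → (∀ p ∈ P, ρ p ≤ k) →
    1 ≤ (∏ p ∈ P, (1 - (ρ p : ℝ) / p)) * (D * (2 : ℝ) ^ (2 * k * J)) := by
  obtain ⟨C0, hC0⟩ := Pool.Agent.Helper256.KM.mertens_inv
  have hC00 : 0 ≤ C0 := (abs_nonneg _).trans (hC0 3 le_rfl)
  obtain ⟨D, hD⟩ := exists_nat_ge (Real.exp (2 * k * C0))
  have hD1 : 1 ≤ D := by
    have h1 : (1 : ℝ) ≤ Real.exp (2 * k * C0) := Real.one_le_exp (by positivity)
    exact_mod_cast h1.trans hD
  refine ⟨D, hD1, fun J z0 P ρ hJ hz hP hρ => ?_⟩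
  have hN3 : 3 ≤ 2 ^ 2 ^ J := by
    calc 3 ≤ 2 ^ 2 ^ 1 := by norm_num
      _ ≤ 2 ^ 2 ^ J := Nat.pow_le_pow_right (by norm_num) (Nat.pow_le_pow_right (by norm_num) hJ)
  have hsum : ∑ p ∈ P, (1 : ℝ) / p ≤ J * Real.log 2 + C0 := by
    have h1 := (abs_le.1 (hC0 (2 ^ 2 ^ J) hN3)).2
    have h2 : Real.log (Real.log ((2 ^ 2 ^ J : ℕ) : ℝ)) ≤ J * Real.log 2 := by
      push_cast
      rw [Real.log_pow]
      push_cast
      have hl2 : (0 : ℝ) < Real.log 2 := Real.log_pos (by norm_num)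
      rw [Real.log_mul (by positivity) hl2.ne', Real.log_pow]
      have hl : Real.log (Real.log 2) ≤ 0 := by
        apply Real.log_nonpos hl2.le
        have := Real.log_two_lt_d9
        linarith
      linarith
    have h3 : ∑ p ∈ P, (1 : ℝ) / p ≤ ∑ p ∈ (Icc 1 (2 ^ 2 ^ J)).filter Nat.Prime, (1 : ℝ) / p := by
      apply sum_le_sum_of_subset_of_nonneg
      · intro p hp
        obtain ⟨h4, h5, h6⟩ := hP p hp
        rw [mem_filter, mem_Icc]
        exact ⟨⟨h4.one_lt.le, h6⟩, h4⟩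
      · intro _ _ _
        positivity
    linarith
  have h1 : Real.exp (-(2 * k * (J * Real.log 2 + C0))) ≤ ∏ p ∈ P, (1 - (ρ p : ℝ) / p) := by
    calc Real.exp (-(2 * k * (J * Real.log 2 + C0)))
        ≤ Real.exp (∑ p ∈ P, -(2 * ((ρ p : ℝ) / p))) := by
          apply Real.exp_le_exp.2
          rw [sum_neg_distrib, neg_le_neg_iff, ← mul_sum]
          have h2 : ∑ p ∈ P, (ρ p : ℝ) / p ≤ k * ∑ p ∈ P, (1 : ℝ) / p := by
            rw [mul_sum]
            apply sum_le_sum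
            intro p hp
            have hp' : (0 : ℝ) < p := by exact_mod_cast (hP p hp).1.pos
            rw [mul_one_div]
            apply div_le_div_of_nonneg_right _ hp'.le
            exact_mod_cast hρ p hp
          have h3 : (k : ℝ) * ∑ p ∈ P, (1 : ℝ) / p ≤ k * (J * Real.log 2 + C0) :=
            mul_le_mul_of_nonneg_left hsum (Nat.cast_nonneg k)
          linarith
      _ = ∏ p ∈ P, Real.exp (-(2 * ((ρ p : ℝ) / p))) := Real.exp_sum _ _
      _ ≤ ∏ p ∈ P, (1 - (ρ p : ℝ) / p) := by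
          apply prod_le_prod
          · intro _ _
            exact (Real.exp_pos _).le
          · intro p hp
            obtain ⟨h2, h3, _⟩ := hP p hp
            have hp' : (0 : ℝ) < p := by exact_mod_cast h2.pos
            apply exp_two_le (by positivity)
            rw [div_le_iff₀ hp']
            have h5 := hρ p hp
            have : ((2 * ρ p : ℕ) : ℝ) ≤ p := by exact_mod_cast (show 2 * ρ p ≤ p by omega)
            push_cast at this
            linarith
  have h2 : Real.exp (2 * k * (J * Real.log 2 + C0)) ≤ D * (2 : ℝ) ^ (2 * k * J) := by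
    have h3 : (2 * (k : ℝ) * (J * Real.log 2 + C0)) = 2 * k * C0 + ((2 * k * J : ℕ) : ℝ) * Real.log 2 := by
      push_cast
      ring
    rw [h3, Real.exp_add, Real.exp_nat_mul, Real.exp_log (by norm_num)]
    exact mul_le_mul_of_nonneg_right hD (by positivity)
  calc (1 : ℝ) = Real.exp (-(2 * k * (J * Real.log 2 + C0))) *
        Real.exp (2 * k * (J * Real.log 2 + C0)) := by
        rw [← Real.exp_add, neg_add_cancel, Real.exp_zero]
    _ ≤ _ := mul_le_mul h1 h2 (Real.exp_pos _).le ((Real.exp_pos _).le.trans h1)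

open Classical in
/-- the number of hit classes is at most the number of forms -/
lemma card_hit_le {p : ℕ} (hp : p.Prime) (α β0 : ℕ) (hα : ¬ p ∣ α) (A : Finset ℕ) :
    ((range p).filter (fun c => ∃ a ∈ A, p ∣ α * c + (β0 + a))).card ≤ A.card := by
  have h1 : (range p).filter (fun c => ∃ a ∈ A, p ∣ α * c + (β0 + a)) ⊆
      A.biUnion (fun a => (range p).filter (fun c => ∃ β ∈ ({β0 + a} : Finset ℕ), p ∣ α * c + β)) := by
    intro c hc
    rw [mem_filter] at hc
    obtain ⟨h2, a, ha, hd⟩ := hc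
    rw [mem_biUnion]
    exact ⟨a, ha, mem_filter.2 ⟨h2, β0 + a, mem_singleton_self _, hd⟩⟩
  refine (card_le_card h1).trans ?_
  have h2 := card_biUnion_le_card_mul A
    (fun a => (range p).filter (fun c => ∃ β ∈ ({β0 + a} : Finset ℕ), p ∣ α * c + β)) 1 (by
      intro a _
      have h3 := card_hit hp α hα {β0 + a} (by
        intro β hβ β' hβ' _
        rw [mem_singleton] at hβ hβ'
        rw [hβ, hβ'])
      rw [card_singleton] at h3
      exact h3.le)
  rw [mul_one] at h2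
  exact h2

/-- the multiples of a prime -/
lemma card_mult {q : ℕ} (hq : q.Prime) (α β U : ℕ) (hα : ¬ q ∣ α) :
    (((range U).filter (fun v => q ∣ α * v + β)).card : ℝ) ≤ (U : ℝ) / q + 1 := by
  rcases ((range U).filter (fun v => q ∣ α * v + β)).eq_empty_or_nonempty with h | ⟨v0, hv0⟩
  · rw [h, card_empty, Nat.cast_zero]
    positivity
  · have hv0' := (mem_filter.1 hv0).2
    have hg : Nat.gcd q α = 1 := (Nat.Prime.coprime_iff_not_dvd hq).2 hα
    have h1 : (range U).filter (fun v => q ∣ α * v + β) ⊆ (range U).filter (fun v => v ≡ v0 [MOD q]) := by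
      intro v hv
      rw [mem_filter] at hv ⊢
      refine ⟨hv.1, ?_⟩
      have h2 := class_unique hq.pos hv.2 hv0'
      rw [hg, Nat.div_one] at h2
      exact h2
    have h2 : (((range U).filter (fun v => q ∣ α * v + β)).card : ℝ) ≤
        (((range U).filter (fun v => v ≡ v0 [MOD q])).card : ℝ) := by exact_mod_cast card_le_card h1
    have h3 := (abs_le.1 (cnt_range U q v0 hq.pos)).2
    linarith

lemma sq_le_two_pow (J : ℕ) (hJ : 7 ≤ J) : J ^ 2 ≤ 2 ^ (J - 1) := by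
  induction J, hJ using Nat.le_induction with
  | base => norm_num
  | succ J hJ ih =>
    have h1 : 2 ^ (J + 1 - 1) = 2 * 2 ^ (J - 1) := by
      rw [← pow_succ']
      congr 1
      omega
    rw [h1]
    nlinarith

/-- an element for the second set: all sums are rough and avoid a given set of primes -/
theorem opB (k : ℕ) (hk : 1 ≤ k) : ∃ r J0 : ℕ, ∀ A : Finset ℕ, A.card = k → Adm A →
    ∀ J : ℕ, J0 ≤ J → ∀ (X : ℕ) (Q : Finset ℕ), (∀ q ∈ Q, q.Prime) → Q.card ≤ 2 ^ 2 ^ (J - 1) →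
    ∃ b, X < b ∧ b ≤ X + (2 ^ 2 ^ J) ^ r ∧
      ∀ a ∈ A, ∀ p : ℕ, p.Prime → (p ≤ 2 ^ 2 ^ J ∨ p ∈ Q) → ¬ p ∣ a + b := by
  classical
  obtain ⟨C, hC1, hS⟩ := sieve
  obtain ⟨D, hD1, hV⟩ := V_low k
  set b0 := C * (k + 1) with hb0
  set z0 := 2 * (C * (k + 1)) with hz0
  have hkC : k + 1 ≤ C * (k + 1) := Nat.le_mul_of_pos_left _ (by omega)
  set W0 := ∏ p ∈ (range (z0 + 1)).filter Nat.Prime, p with hW0
  have hW0pos : 0 < W0 := prod_pos fun p hp => (mem_filter.1 hp).2.pos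
  set r0 := C * b0 + 2 with hr0
  set c := 2 * D * (2 * k + 1) with hc
  have hWdvd : ∀ p : ℕ, p.Prime → z0 < p → ¬ p ∣ W0 := by
    intro p hp hpz hd
    rw [hW0] at hd
    obtain ⟨q, hq, hqd⟩ := (Prime.dvd_finsetProd_iff hp.prime _).1 hd
    rw [mem_filter, mem_range] at hq
    have := (Nat.prime_dvd_prime_iff_eq hp hq.2).1 hqd
    omega
  clear_value W0 z0 b0
  refine ⟨r0 + 1, 2 * W0 + 7 + 2 * k + c + z0, fun A hA hAdm J hJ X Q hQ hQc => ?_⟩
  have hJ1 : 1 ≤ J := by omega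
  set z := 2 ^ 2 ^ J with hz
  have hzJ : J < z := by
    have h1 : J < 2 ^ J := Nat.lt_two_pow_self
    have h2 : 2 ^ J < 2 ^ 2 ^ J := Nat.lt_two_pow_self
    omega
  have hzsq : z = 2 ^ 2 ^ (J - 1) * 2 ^ 2 ^ (J - 1) := by
    rw [hz, ← pow_add]
    congr 1
    rw [← two_mul, ← pow_succ']
    congr 1
    omega
  set U := z ^ r0 with hU
  have hz1 : 1 ≤ z := Nat.one_le_two_pow
  have hU1 : 1 ≤ U := Nat.one_le_pow _ _ hz1
  -- the start
  have hch : ∀ p : ℕ, p.Prime → ∃ c', c' < p ∧ ∀ a ∈ A, ¬ p ∣ c' + a := by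
    intro p hp
    obtain ⟨c', hc'⟩ := hAdm p hp
    refine ⟨c' % p, Nat.mod_lt _ hp.pos, fun a ha hd => hc' a ha ?_⟩
    exact ((Nat.mod_modEq c' p).add_right a).dvd_iff dvd_rfl |>.1 hd
  choose! c' hc'lt hc' using hch
  obtain ⟨v0, hv0⟩ := Pool.Agent.TH423.SH.FLIP.crt_set 1 0 c' ((range (z0 + 1)).filter Nat.Prime)
    (fun p hp => ⟨(mem_filter.1 hp).2, fun h => (mem_filter.1 hp).2.one_lt.ne' (Nat.dvd_one.1 h)⟩)
    (fun p hp => hc'lt p (mem_filter.1 hp).2)
  rw [one_mul, ← hW0] at hv0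
  obtain ⟨c1, hc1a, hc1b, hc1c⟩ := rep X W0 v0 hW0pos
  have hmod := ((hv0 c1).2 hc1c).2
  have hsmall : ∀ p : ℕ, p.Prime → p ≤ z0 → ∀ a ∈ A, ∀ v, ¬ p ∣ W0 * v + (c1 + a) := by
    intro p hp hpz a ha v hd
    have hmem : p ∈ (range (z0 + 1)).filter Nat.Prime := mem_filter.2 ⟨mem_range.2 (by omega), hp⟩
    have h1 : p ∣ W0 := by
      rw [hW0]
      exact dvd_prod_of_mem _ hmem
    have h2 : p ∣ c1 + a := (Nat.dvd_add_right (h1.mul_right v)).1 hd
    have h3 := hmod p hmem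
    apply hc' p hp a ha
    have h4 : c' p ≡ c1 [MOD p] := by
      rw [← h3]
      exact Nat.mod_modEq _ _
    exact (h4.add_right a).dvd_iff dvd_rfl |>.2 h2
  set P := (Ioc z0 z).filter Nat.Prime with hP
  have hPf : ∀ p ∈ P, p.Prime ∧ z0 < p ∧ p ≤ 2 ^ 2 ^ J := by
    intro p hp
    rw [hP, mem_filter, mem_Ioc] at hp
    exact ⟨hp.2, hp.1.1, hp.1.2⟩
  set ρ : ℕ → ℕ := fun p => ((range p).filter (fun c => ∃ a ∈ A, p ∣ W0 * c + (c1 + a))).card with hρ
  have hρk : ∀ p ∈ P, ρ p ≤ k := by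
    intro p hp
    have h1 := card_hit_le (hPf p hp).1 W0 c1 (hWdvd p (hPf p hp).1 (hPf p hp).2.1) A
    rw [hA] at h1
    convert h1
  set T := (range U).filter (fun v => ∀ p ∈ P, ¬ ∃ a ∈ A, p ∣ W0 * v + (c1 + a)) with hT
  have hlow : 1 / 2 * (U * ∏ p ∈ P, (1 - (ρ p : ℝ) / p)) - ((2 : ℝ) ^ 2 ^ J) ^ (C * b0) ≤ (T.card : ℝ) := by
    apply sieve_lower (κ := k) (z0 := z0) hC1 hS hb0.ge (by omega) hPf
      (fun p v => ∃ a ∈ A, p ∣ W0 * v + (c1 + a)) ρ
    · intro p _ v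
      constructor
      · rintro ⟨a', h1, h2⟩
        exact ⟨a', h1, (dvd_mod_iff _ _ _ _).1 h2⟩
      · rintro ⟨a', h1, h2⟩
        exact ⟨a', h1, (dvd_mod_iff _ _ _ _).2 h2⟩
    · intro p hp
      simp only [hρ]
      convert rfl
    · exact hρk
    · intro v hv hv2
      rw [hT, mem_filter, mem_range]
      exact ⟨hv, hv2⟩
  have hVl := hV J z0 P ρ hJ1 (by omega) hPf hρk
  by_contra hcon
  push Not at hcon
  -- every sifted element is bad
  set Q' := Q.filter (fun q => z < q) with hQ'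
  have hTsub : T ⊆ (Q' ×ˢ A).biUnion (fun qa => (range U).filter (fun v => qa.1 ∣ W0 * v + (c1 + qa.2))) := by
    intro v hv
    rw [hT, mem_filter, mem_range] at hv
    obtain ⟨a, ha, p, hp, hpor, hd⟩ := hcon (W0 * v + c1) (by omega) (by
      have h1 : W0 * v ≤ W0 * (U - 1) := Nat.mul_le_mul_left _ (by omega)
      have h2 : W0 * U ≤ z * U := Nat.mul_le_mul_right _ (by omega)
      have h3 : W0 * (U - 1) + W0 = W0 * U := by
        calc W0 * (U - 1) + W0 = W0 * (U - 1 + 1) := by ring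
          _ = W0 * U := by rw [Nat.sub_add_cancel hU1]
      have h4 : z ^ (r0 + 1) = z * U := by rw [hU, pow_succ]; ring
      rw [h4]
      omega)
    have e : a + (W0 * v + c1) = W0 * v + (c1 + a) := by ring
    rw [e] at hd
    have hpz0 : z0 < p := by
      by_contra hle
      exact hsmall p hp (by omega) a ha v hd
    have hpz : z < p := by
      by_contra hle
      apply hv.2 p _ ⟨a, ha, hd⟩
      rw [hP, mem_filter, mem_Ioc]
      exact ⟨⟨hpz0, by omega⟩, hp⟩
    have hpQ : p ∈ Q := by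
      rcases hpor with h | h
      · omega
      · exact h
    rw [mem_biUnion]
    refine ⟨(p, a), ?_, ?_⟩
    · rw [mem_product]
      exact ⟨mem_filter.2 ⟨hpQ, hpz⟩, ha⟩
    · rw [mem_filter, mem_range]
      exact ⟨hv.1, hd⟩
  have hzr : (0 : ℝ) < z := by exact_mod_cast (show 0 < z by omega)
  have hTup : (T.card : ℝ) ≤ (2 : ℝ) ^ 2 ^ (J - 1) * k * ((U : ℝ) / z + 1) := by
    have h1 : (T.card : ℝ) ≤ ∑ qa ∈ Q' ×ˢ A, (((range U).filter
        (fun v => qa.1 ∣ W0 * v + (c1 + qa.2))).card : ℝ) := by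
      exact_mod_cast (card_le_card hTsub).trans card_biUnion_le
    have h2 : ∑ qa ∈ Q' ×ˢ A, (((range U).filter
        (fun v => qa.1 ∣ W0 * v + (c1 + qa.2))).card : ℝ) ≤ ∑ _qa ∈ Q' ×ˢ A, ((U : ℝ) / z + 1) := by
      apply sum_le_sum
      intro qa hqa
      rw [mem_product, hQ', mem_filter] at hqa
      have hqp := hQ qa.1 hqa.1.1
      have h3 := card_mult hqp W0 (c1 + qa.2) U (hWdvd qa.1 hqp (by omega))
      refine h3.trans ?_
      have h4 : (U : ℝ) / qa.1 ≤ U / z := by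
        apply div_le_div_of_nonneg_left (Nat.cast_nonneg U) hzr
        exact_mod_cast hqa.1.2.le
      linarith
    rw [sum_const, card_product, hA, nsmul_eq_mul] at h2
    refine h1.trans (h2.trans ?_)
    apply mul_le_mul_of_nonneg_right _ (by positivity)
    push_cast
    apply mul_le_mul_of_nonneg_right _ (Nat.cast_nonneg k)
    have h5 : Q'.card ≤ 2 ^ 2 ^ (J - 1) := (card_filter_le _ _).trans hQc
    exact_mod_cast h5
  -- the contradiction
  set y : ℝ := (2 : ℝ) ^ 2 ^ (J - 1) with hy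
  have hy1 : 1 ≤ y := one_le_pow₀ (by norm_num)
  have hzy : (z : ℝ) = y * y := by
    rw [hzsq]
    push_cast
    rfl
  have hUz : ((2 : ℝ) ^ 2 ^ J) ^ (C * b0) * (z : ℝ) ^ 2 = U := by
    have h1 : (z : ℝ) = (2 : ℝ) ^ 2 ^ J := by
      rw [hz]
      push_cast
      rfl
    rw [hU, hr0]
    push_cast
    rw [← h1, pow_add]
  have hUpos : (0 : ℝ) < U := by exact_mod_cast hU1
  have hUzge : (1 : ℝ) ≤ (U : ℝ) / z := by
    rw [le_div_iff₀ hzr, one_mul]
    have : z ≤ U := Nat.le_self_pow (by omega) z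
    exact_mod_cast this
  have herr : ((2 : ℝ) ^ 2 ^ J) ^ (C * b0) ≤ (U : ℝ) / z := by
    rw [le_div_iff₀ hzr, ← hUz]
    apply mul_le_mul_of_nonneg_left _ (by positivity)
    have : (1 : ℝ) ≤ z := by exact_mod_cast hz1
    nlinarith
  set V := ∏ p ∈ P, (1 - (ρ p : ℝ) / p) with hVdef
  set G : ℝ := D * (2 : ℝ) ^ (2 * k * J) with hG
  have hD' : (1 : ℝ) ≤ D := by exact_mod_cast hD1
  have hGpos : 0 < G := by positivity
  -- `U ≤ 2 G (U / z) (2 k y + 1)`
  have hmain : (U : ℝ) ≤ 2 * G * ((U : ℝ) / z * (2 * k * y + 1)) := by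
    have h1 : 1 / 2 * (U * V) ≤ (U : ℝ) / z * (2 * k * y + 1) := by
      have h2 : y * k * ((U : ℝ) / z + 1) ≤ y * k * (2 * ((U : ℝ) / z)) := by
        apply mul_le_mul_of_nonneg_left _ (by positivity)
        linarith
      have h3 : (U : ℝ) / z * (2 * k * y + 1) = y * k * (2 * ((U : ℝ) / z)) + (U : ℝ) / z := by ring
      rw [h3]
      linarith
    have h4 : (U : ℝ) * 1 ≤ U * (V * G) := mul_le_mul_of_nonneg_left hVl hUpos.le
    have h5 : (1 / 2 * (U * V)) * (2 * G) ≤ ((U : ℝ) / z * (2 * k * y + 1)) * (2 * G) :=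
      mul_le_mul_of_nonneg_right h1 (by positivity)
    calc (U : ℝ) = U * 1 := (mul_one _).symm
      _ ≤ U * (V * G) := h4
      _ = (1 / 2 * (U * V)) * (2 * G) := by ring
      _ ≤ ((U : ℝ) / z * (2 * k * y + 1)) * (2 * G) := h5
      _ = _ := by ring
  have hzle : (z : ℝ) ≤ 2 * G * (2 * k * y + 1) := by
    have h1 : (U : ℝ) * z ≤ U * (2 * G * (2 * k * y + 1)) := by
      calc (U : ℝ) * z ≤ (2 * G * ((U : ℝ) / z * (2 * k * y + 1))) * z :=
            mul_le_mul_of_nonneg_right hmain hzr.le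
        _ = U * (2 * G * (2 * k * y + 1)) := by field_simp
    exact le_of_mul_le_mul_left h1 hUpos
  have hyle : y ≤ 2 * G * (2 * k + 1) := by
    have h1 : y * y ≤ y * (2 * G * (2 * k + 1)) := by
      rw [← hzy]
      refine hzle.trans ?_
      have h2 : 2 * (k : ℝ) * y + 1 ≤ y * (2 * k + 1) := by linarith
      calc 2 * G * (2 * k * y + 1) ≤ 2 * G * (y * (2 * k + 1)) :=
            mul_le_mul_of_nonneg_left h2 (by positivity)
        _ = _ := by ring
    exact le_of_mul_le_mul_left h1 (by linarith)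
  have hbig : 2 * G * (2 * k + 1) < y := by
    have h1 : 2 * G * (2 * k + 1) = (c : ℝ) * (2 : ℝ) ^ (2 * k * J) := by
      rw [hG, hc]
      push_cast
      ring
    rw [h1]
    have h2 : (c : ℝ) < 2 ^ c := by exact_mod_cast (Nat.lt_two_pow_self (n := c))
    have h3 : 2 * k * J + c ≤ 2 ^ (J - 1) := by
      have h4 := sq_le_two_pow J (by omega)
      have h5 : 2 * k * J + c ≤ J * J := by
        calc 2 * k * J + c ≤ 2 * k * J + c * J := by
              have : c * 1 ≤ c * J := Nat.mul_le_mul_left _ hJ1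
              omega
          _ = (2 * k + c) * J := by ring
          _ ≤ J * J := Nat.mul_le_mul_right _ (by omega)
      rw [sq] at h4
      omega
    calc (c : ℝ) * (2 : ℝ) ^ (2 * k * J) < 2 ^ c * (2 : ℝ) ^ (2 * k * J) :=
          mul_lt_mul_of_pos_right h2 (by positivity)
      _ = (2 : ℝ) ^ (2 * k * J + c) := by rw [← pow_add, add_comm]
      _ ≤ y := pow_le_pow_right₀ (by norm_num) h3
  linarith

end Pool.Agent.TH847.SC
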