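import Pool.Agent.TH847.SC.Dy

/-!
Pairwise coprime sumsets with a prescribed order of growth.
-/

set_option autoImplicit false

open Finset Filter Topology

namespace Pool.Agent.TH847.SC

theorem exists_seq2 {F : ℕ → ℝ} {C : ℝ} (hF : Monotone F) (hFt : Tendsto F atTop atTop) (hC : 1 ≤ C)
    (hFC : ∀ i, F (i + 1) ≤ C * F i) (hGG : SE (GG F)) :
    ∃ (i : ℕ → ℕ) (A B : ℕ → Finset ℕ), ∀ j, ((A j).card = j + 2 ∧ 0 ∈ A j ∧ PC (A j) (B j) ∧
      (∀ b ∈ B j, 1 ≤ b)) ∧ i j < i (j + 1) ∧ (∃ a', A (j + 1) = insert a' (A j) ∧ 2 ^ (i (j + 1) + 1) < a') ∧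
      (∀ a ∈ A j, a ≤ 2 ^ i (j + 1)) ∧ B j ⊆ B (j + 1) ∧ (∀ b ∈ B (j + 1), b ∉ B j → 2 ^ i j < b) ∧
      ((j + 2 : ℕ) : ℝ) * ((j + 2 : ℕ) : ℝ) ≤ F (i (j + 1)) ∧
      ∀ l, i j ≤ l → l ≤ i (j + 1) → ((j + 2 : ℕ) : ℝ) * cnt (B (j + 1)) (2 ^ l) ≤ 2 * F l ∧
        F l ≤ 2 * C * (((j + 2 : ℕ) : ℝ) * cnt (B (j + 1)) (2 ^ l)) := by
  have hst : ∀ k : ℕ, ∃ E I0 : ℕ, 1 ≤ k → SD k E I0 := by
    intro k
    by_cases hk : 1 ≤ k
    · obtain ⟨E, I0, _, h⟩ := stepD k hk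
      exact ⟨E, I0, fun _ => h⟩
    · exact ⟨1, 1, fun h => absurd h hk⟩
  choose E I0 hSD using hst
  have hbig : ∀ k : ℕ, ∃ I, Big F k (E k) (I0 k) I := by
    intro k
    obtain ⟨I, hI⟩ := eventually_atTop.1 ((eventually_ge_atTop (I0 k)).and
      ((hGG (E k)).and (hFt.eventually_ge_atTop (k : ℝ))))
    exact ⟨I, fun i hi => ⟨(hI i hi).1, (hI i hi).2.1, (hI i hi).2.2⟩⟩
  choose I hI using hbig
  have hex : ∀ j (s : ℕ × Finset ℕ × Finset ℕ),
      I (j + 2) ≤ s.1 ∧ Good2 F C (E (j + 2)) (j + 2) s.1 s.2.1 s.2.2 →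
      ∃ t : ℕ × Finset ℕ × Finset ℕ,
        (I (j + 1 + 2) ≤ t.1 ∧ Good2 F C (E (j + 1 + 2)) (j + 1 + 2) t.1 t.2.1 t.2.2) ∧
        s.1 < t.1 ∧ (∃ a', t.2.1 = insert a' s.2.1 ∧ 2 ^ (t.1 + 1) < a') ∧
        (∀ a ∈ s.2.1, a ≤ 2 ^ t.1) ∧ s.2.2 ⊆ t.2.2 ∧ (∀ b ∈ t.2.2, b ∉ s.2.2 → 2 ^ s.1 < b) ∧
        ((j + 2 : ℕ) : ℝ) * ((j + 2 : ℕ) : ℝ) ≤ F t.1 ∧
        ∀ l, s.1 ≤ l → l ≤ t.1 → ((j + 2 : ℕ) : ℝ) * cnt t.2.2 (2 ^ l) ≤ 2 * F l ∧
          F l ≤ 2 * C * (((j + 2 : ℕ) : ℝ) * cnt t.2.2 (2 ^ l)) := by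
    rintro j ⟨i, A, B⟩ ⟨h1, h2⟩
    obtain ⟨i', a', B', e1, e2, e3, e4, e5, _, e7, e8, e8', e9⟩ := cycle2 hF hFt hC hFC hGG (k := j + 2)
      (by omega) (hSD (j + 2) (by omega)) (hI (j + 2)) (E (j + 3)) (i := i) h1 h2 (I (j + 1 + 2))
    exact ⟨(i', insert a' A, B'), ⟨e1, e8⟩, e2, ⟨a', rfl, e5⟩, e7, e3, e4, e8', e9⟩
  obtain ⟨B0, hB0⟩ := start2 hF hC hFC (hSD 2 (by norm_num)) (hI 2) (le_refl (I 2))
  let St : ℕ → Type := fun j =>
    {s : ℕ × Finset ℕ × Finset ℕ // I (j + 2) ≤ s.1 ∧ Good2 F C (E (j + 2)) (j + 2) s.1 s.2.1 s.2.2}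
  let f : ∀ j, St j := fun j => Nat.rec (motive := St) ⟨(I 2 + 1, {0, 2}, B0), Nat.le_succ _, hB0⟩
    (fun j s => ⟨(hex j s.1 s.2).choose, (hex j s.1 s.2).choose_spec.1⟩) j
  have hf : ∀ j, (f (j + 1)).1 = (hex j (f j).1 (f j).2).choose := fun j => rfl
  refine ⟨fun j => (f j).1.1, fun j => (f j).1.2.1, fun j => (f j).1.2.2, fun j => ?_⟩
  have h1 := (f j).2.2
  have h2 := (hex j (f j).1 (f j).2).choose_spec.2
  rw [← hf j] at h2
  exact ⟨⟨h1.1, h1.2.1, h1.2.2.2.1, fun b hb => (h1.2.2.2.2.1 b hb).1⟩, h2⟩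

/-- regular functions below every power of `n` are attained orders -/
theorem attain (f : ℕ → ℝ) (hf : Monotone f) (hft : Tendsto f atTop atTop)
    (hdbl : ∃ C : ℝ, ∀ᶠ n : ℕ in atTop, f (2 * n) ≤ C * f n)
    (hsub : ∀ ε : ℝ, 0 < ε → ∀ᶠ n : ℕ in atTop, f n ≤ (n : ℝ) ^ ε) :
    ∃ A B : Set ℕ, Admissible A B ∧ ∃ c1 c2 : ℝ, 0 < c1 ∧ 0 < c2 ∧ ∀ᶠ n : ℕ in atTop,
      c1 * f n ≤ S A B n ∧ (S A B n : ℝ) ≤ c2 * f n := by
  classical
  obtain ⟨C0, hC0⟩ := hdbl
  obtain ⟨n0, hn0⟩ := eventually_atTop.1 (hC0.and (hft.eventually_ge_atTop 1))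
  set C := max C0 1 with hCdef
  have hC : 1 ≤ C := le_max_right _ _
  have hCpos : 0 < C := by linarith
  set F : ℕ → ℝ := fun i => f (2 ^ max i n0) with hFdef
  have hn0p : ∀ i, n0 ≤ 2 ^ max i n0 := fun i => by
    have h1 : max i n0 < 2 ^ max i n0 := Nat.lt_two_pow_self
    have h2 : n0 ≤ max i n0 := le_max_right _ _
    omega
  have hF1 : ∀ i, 1 ≤ F i := fun i => (hn0 _ (hn0p i)).2
  have hF : Monotone F := fun i j hij =>
    hf (Nat.pow_le_pow_right (by norm_num) (max_le_max hij le_rfl))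
  have hpow : Tendsto (fun i : ℕ => 2 ^ max i n0) atTop atTop :=
    tendsto_atTop_mono (fun i => by
      show i ≤ 2 ^ max i n0
      have h1 : max i n0 < 2 ^ max i n0 := Nat.lt_two_pow_self
      have h2 : i ≤ max i n0 := le_max_left _ _
      omega) tendsto_id
  have hFt : Tendsto F atTop atTop := hft.comp hpow
  have hFC : ∀ i, F (i + 1) ≤ C * F i := by
    intro i
    rcases Nat.lt_or_ge i n0 with h | h
    · have e1 : F (i + 1) = F i := by
        simp only [hFdef]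
        rw [max_eq_right (by omega : i + 1 ≤ n0), max_eq_right h.le]
      rw [e1]
      exact le_mul_of_one_le_left (by linarith [hF1 i]) hC
    · have e1 : F (i + 1) = f (2 * 2 ^ max i n0) := by
        simp only [hFdef]
        rw [max_eq_left (by omega : n0 ≤ i + 1), max_eq_left h, pow_succ']
      rw [e1]
      refine (hn0 _ (hn0p i)).1.trans ?_
      exact mul_le_mul_of_nonneg_right (le_max_left _ _) (by linarith [hF1 i])
  have hGG : SE (GG F) := by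
    intro E
    have hpos : (0 : ℝ) < 1 / ((2 * E + 1 : ℕ) : ℝ) := by positivity
    have h1 := hpow.eventually (hsub _ hpos)
    filter_upwards [h1, (SE.const 3) (2 * E + 1), eventually_ge_atTop n0] with i hi1 hi2 hi3
    have h2 : (GG F i : ℝ) ≤ 3 * F i := by
      have := Nat.ceil_lt_add_one (show 0 ≤ 2 * F i by linarith [hF1 i])
      have := hF1 i
      unfold GG
      linarith
    have h3 : F i ^ (2 * E + 1) ≤ (2 : ℝ) ^ i := by
      have h4 : F i ≤ ((2 : ℝ) ^ i) ^ (1 / ((2 * E + 1 : ℕ) : ℝ)) := by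
        have h5 : f (2 ^ max i n0) ≤ ((2 ^ max i n0 : ℕ) : ℝ) ^ (1 / ((2 * E + 1 : ℕ) : ℝ)) := hi1
        rw [max_eq_left hi3] at h5
        push_cast at h5 ⊢
        simp only [hFdef]
        rw [max_eq_left hi3]
        exact h5
      calc F i ^ (2 * E + 1) ≤ (((2 : ℝ) ^ i) ^ (1 / ((2 * E + 1 : ℕ) : ℝ))) ^ (2 * E + 1) :=
            pow_le_pow_left₀ (by linarith [hF1 i]) h4 _
        _ = (2 : ℝ) ^ i := by
            rw [← Real.rpow_natCast (((2 : ℝ) ^ i) ^ (1 / ((2 * E + 1 : ℕ) : ℝ))) (2 * E + 1),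
              ← Real.rpow_mul (by positivity), one_div_mul_cancel (by positivity), Real.rpow_one]
    have h6 : ((GG F i : ℝ) ^ E) ^ 2 ≤ ((2 : ℝ) ^ i) ^ 2 := by
      have h7 : (3 : ℝ) ^ (2 * E) ≤ (2 : ℝ) ^ i := by
        have h8 : (3 : ℝ) ^ (2 * E) ≤ (3 : ℝ) ^ (2 * E + 1) := pow_le_pow_right₀ (by norm_num) (by omega)
        refine h8.trans ?_
        exact_mod_cast hi2
      have h9 : F i ^ (2 * E) ≤ (2 : ℝ) ^ i :=
        (pow_le_pow_right₀ (hF1 i) (by omega)).trans h3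
      calc ((GG F i : ℝ) ^ E) ^ 2 = (GG F i : ℝ) ^ (2 * E) := by rw [← pow_mul, mul_comm]
        _ ≤ (3 * F i) ^ (2 * E) := pow_le_pow_left₀ (Nat.cast_nonneg _) h2 _
        _ = 3 ^ (2 * E) * F i ^ (2 * E) := mul_pow _ _ _
        _ ≤ (2 : ℝ) ^ i * (2 : ℝ) ^ i := mul_le_mul h7 h9 (by have := hF1 i; positivity) (by positivity)
        _ = ((2 : ℝ) ^ i) ^ 2 := (sq _).symm
    have h10 : (GG F i : ℝ) ^ E ≤ (2 : ℝ) ^ i := le_of_sq_le_sq h6 (by positivity)
    exact_mod_cast h10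
  obtain ⟨i, A, B, h⟩ := exists_seq2 hF hFt hC hFC hGG
  have him : StrictMono i := strictMono_nat_of_lt_succ fun j => (h j).2.1
  have hAm : Monotone A := monotone_nat_of_le_succ fun j => by
    obtain ⟨a', ha', _⟩ := (h j).2.2.1
    rw [ha']
    exact subset_insert _ _
  have hBm : Monotone B := monotone_nat_of_le_succ fun j => (h j).2.2.2.2.1
  -- old elements are small, new elements are large
  have hold : ∀ j d a, a ∈ A (j + d) → a ≤ 2 ^ (i (j + 1) + 1) → a ∈ A j := by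
    intro j d a
    induction d with
    | zero => intro h1 _; exact h1
    | succ d ih =>
      intro h1 h2
      obtain ⟨a', ha', hlt⟩ := (h (j + d)).2.2.1
      rw [← add_assoc, ha', mem_insert] at h1
      rcases h1 with rfl | h1
      · exfalso
        have h3 : 2 ^ (i (j + 1) + 1) ≤ 2 ^ (i (j + d + 1) + 1) :=
          Nat.pow_le_pow_right (by norm_num) (Nat.add_le_add_right (him.monotone (by omega)) 1)
        omega
      · exact ih h1 h2
  have holdB : ∀ j d b, b ∈ B (j + 1 + d) → b ≤ 2 ^ i (j + 1) → b ∈ B (j + 1) := by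
    intro j d b
    induction d with
    | zero => intro h1 _; exact h1
    | succ d ih =>
      intro h1 h2
      by_cases hb : b ∈ B (j + 1 + d)
      · exact ih hb h2
      · exfalso
        have h3 := (h (j + 1 + d)).2.2.2.2.2.1 b h1 hb
        have h4 : 2 ^ i (j + 1) ≤ 2 ^ i (j + 1 + d) :=
          Nat.pow_le_pow_right (by norm_num) (him.monotone (by omega))
        omega
  set A' : Set ℕ := {a | ∃ j, a ∈ A j} with hA'
  set B' : Set ℕ := {b | ∃ j, b ∈ B j} with hB'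
  have hfind : ∀ l, i 0 ≤ l → ∃ j, i j ≤ l ∧ l < i (j + 1) := by
    intro l hl
    have hex : ∃ m, l < i m := ⟨l + 1, by have := him.id_le (l + 1); simp only [id] at this; omega⟩
    have h0 : Nat.find hex ≠ 0 := by
      intro h0
      have := Nat.find_spec hex
      rw [h0] at this
      omega
    obtain ⟨j, hj⟩ := Nat.exists_eq_succ_of_ne_zero h0
    have h1 := Nat.find_spec hex
    have h2 := Nat.find_min hex (show j < Nat.find hex by omega)
    rw [hj] at h1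
    exact ⟨j, by omega, h1⟩
  -- upper bound
  have hupper : ∀ j l n, i j ≤ l → l < i (j + 1) → n ≤ 2 ^ (l + 1) → (S A' B' n : ℝ) ≤ 2 * F (l + 1) := by
    intro j l n hl1 hl2 hn
    have h1 : S A' B' n ≤ (j + 2) * cnt (B (j + 1)) (2 ^ (l + 1)) := by
      unfold S
      have h2 : sums A' B' ∩ Set.Icc 1 n ⊆
          (((A j ×ˢ (B (j + 1)).filter (fun b => b ≤ 2 ^ (l + 1))).image (fun q => q.1 + q.2) : Finset ℕ) :
            Set ℕ) := by
        rintro s ⟨⟨a, ⟨m1, ha⟩, b, ⟨m2, hb⟩, rfl⟩, hs1, hs2⟩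
        rw [mem_coe, mem_image]
        have h3 : 2 ^ (l + 1) ≤ 2 ^ i (j + 1) := Nat.pow_le_pow_right (by norm_num) (by omega)
        have h4 : 2 ^ i (j + 1) ≤ 2 ^ (i (j + 1) + 1) := Nat.pow_le_pow_right (by norm_num) (by omega)
        refine ⟨(a, b), ?_, rfl⟩
        rw [mem_product, mem_filter]
        refine ⟨hold j m1 a (hAm (by omega : m1 ≤ j + m1) ha) (by omega),
          holdB j m2 b (hBm (by omega : m2 ≤ j + 1 + m2) hb) (by omega), ?_⟩
        show b ≤ 2 ^ (l + 1)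
        omega
      calc (sums A' B' ∩ Set.Icc 1 n).ncard ≤ _ := Set.ncard_le_ncard h2 (Finset.finite_toSet _)
        _ = ((A j ×ˢ (B (j + 1)).filter (fun b => b ≤ 2 ^ (l + 1))).image (fun q => q.1 + q.2)).card :=
            Set.ncard_coe_finset _
        _ ≤ (A j ×ˢ (B (j + 1)).filter (fun b => b ≤ 2 ^ (l + 1))).card := card_image_le
        _ = (j + 2) * cnt (B (j + 1)) (2 ^ (l + 1)) := by
            rw [card_product, (h j).1.1]
            rfl
    have h2 := ((h j).2.2.2.2.2.2.2 (l + 1) (by omega) (by omega)).1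
    calc (S A' B' n : ℝ) ≤ (((j + 2) * cnt (B (j + 1)) (2 ^ (l + 1)) : ℕ) : ℝ) := by exact_mod_cast h1
      _ = ((j + 2 : ℕ) : ℝ) * cnt (B (j + 1)) (2 ^ (l + 1)) := by push_cast; ring
      _ ≤ 2 * F (l + 1) := h2
  -- lower bound
  have hlower : ∀ j l n, i (j + 1) ≤ l → l ≤ i (j + 2) → 2 ^ (l + 1) ≤ n →
      F l ≤ 4 * C * (S A' B' n : ℝ) := by
    intro j l n hl1 hl2 hn
    have h1 : (j + 2) * cnt (B (j + 2)) (2 ^ l) ≤ S A' B' n := by
      unfold S
      have hinj : Set.InjOn (fun q : ℕ × ℕ => q.1 + q.2)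
          ((A j ×ˢ (B (j + 2)).filter (fun b => b ≤ 2 ^ l) : Finset (ℕ × ℕ)) : Set (ℕ × ℕ)) := by
        rintro ⟨a, b⟩ hq ⟨a', b'⟩ hq' he
        rw [mem_coe, mem_product, mem_filter] at hq hq'
        have he' : a + b = a' + b' := he
        by_contra hne
        have hor : a ≠ a' ∨ b ≠ b' := by
          by_contra hcon
          push Not at hcon
          exact hne (by rw [hcon.1, hcon.2])
        obtain ⟨_, _, hPC, hb1⟩ := (h (j + 2)).1
        have h3 := hPC a (hAm (by omega : j ≤ j + 2) hq.1) b hq.2.1 a' (hAm (by omega : j ≤ j + 2) hq'.1)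
          b' hq'.2.1 hor
        rw [← he', Nat.coprime_self] at h3
        have h4 := hb1 b hq.2.1
        have h5 := hb1 b' hq'.2.1
        rcases hor with h6 | h6 <;> omega
      have h2 : (((A j ×ˢ (B (j + 2)).filter (fun b => b ≤ 2 ^ l)).image (fun q => q.1 + q.2) : Finset ℕ) :
            Set ℕ) ⊆ sums A' B' ∩ Set.Icc 1 n := by
        intro s hs
        rw [mem_coe, mem_image] at hs
        obtain ⟨⟨a, b⟩, hq, rfl⟩ := hs
        rw [mem_product, mem_filter] at hq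
        have h3 : a ≤ 2 ^ i (j + 1) := (h j).2.2.2.1 a hq.1
        have h4 : 2 ^ i (j + 1) ≤ 2 ^ l := Nat.pow_le_pow_right (by norm_num) hl1
        have h5 : 2 ^ (l + 1) = 2 ^ l + 2 ^ l := by rw [pow_succ]; ring
        have h6 : b ≤ 2 ^ l := hq.2.2
        have h7 : 1 ≤ b := (h (j + 2)).1.2.2.2 b hq.2.1
        refine ⟨⟨a, ⟨j, hq.1⟩, b, ⟨j + 2, hq.2.1⟩, rfl⟩, ?_, ?_⟩
        · show 1 ≤ a + b
          omega
        · show a + b ≤ n
          omega
      calc (j + 2) * cnt (B (j + 2)) (2 ^ l)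
          = (A j ×ˢ (B (j + 2)).filter (fun b => b ≤ 2 ^ l)).card := by
            rw [card_product, (h j).1.1]
            rfl
        _ = ((A j ×ˢ (B (j + 2)).filter (fun b => b ≤ 2 ^ l)).image (fun q => q.1 + q.2)).card :=
            (card_image_of_injOn hinj).symm
        _ = _ := (Set.ncard_coe_finset _).symm
        _ ≤ _ := Set.ncard_le_ncard h2 ((Set.finite_Icc 1 n).inter_of_right _)
    have h2 := ((h (j + 1)).2.2.2.2.2.2.2 l hl1 hl2).2
    have h3 : ((j + 1 + 2 : ℕ) : ℝ) * cnt (B (j + 1 + 1)) (2 ^ l) ≤ 2 * (S A' B' n : ℝ) := by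
      have h4 : (j + 1 + 2) * cnt (B (j + 1 + 1)) (2 ^ l) ≤ 2 * S A' B' n := by
        calc (j + 1 + 2) * cnt (B (j + 1 + 1)) (2 ^ l) ≤ (2 * (j + 2)) * cnt (B (j + 2)) (2 ^ l) :=
              Nat.mul_le_mul_right _ (by omega)
          _ = 2 * ((j + 2) * cnt (B (j + 2)) (2 ^ l)) := by ring
          _ ≤ 2 * S A' B' n := Nat.mul_le_mul_left _ h1
      exact_mod_cast h4
    calc F l ≤ 2 * C * (((j + 1 + 2 : ℕ) : ℝ) * cnt (B (j + 1 + 1)) (2 ^ l)) := h2
      _ ≤ 2 * C * (2 * (S A' B' n : ℝ)) := mul_le_mul_of_nonneg_left h3 (by linarith)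
      _ = 4 * C * (S A' B' n : ℝ) := by ring
  -- both bounds in terms of `f`
  have hbounds : ∀ᶠ n : ℕ in atTop, f n ≤ 4 * C * C * C * (S A' B' n : ℝ) ∧ (S A' B' n : ℝ) ≤ 2 * C * f n := by
    filter_upwards [eventually_ge_atTop (2 ^ (i 1 + n0 + 1))] with n hn
    obtain ⟨l, hl⟩ : ∃ l, l = Nat.log 2 n := ⟨_, rfl⟩
    have hnpos : 0 < 2 ^ (i 1 + n0 + 1) := by positivity
    have hl1 : 2 ^ l ≤ n := by rw [hl]; exact Nat.pow_log_le_self 2 (by omega)
    have hl2 : n < 2 ^ (l + 1) := by rw [hl]; exact Nat.lt_pow_succ_log_self (by norm_num) n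
    have hl3 : i 1 + n0 + 1 ≤ l := by
      have h1 : 2 ^ (i 1 + n0 + 1) < 2 ^ (l + 1) := lt_of_le_of_lt hn hl2
      have := (Nat.pow_lt_pow_iff_right (by norm_num)).1 h1
      omega
    have h01 : i 0 < i 1 := him (by norm_num)
    constructor
    · obtain ⟨j, hj1, hj2⟩ := hfind (l - 1) (by omega)
      have hj0 : j ≠ 0 := by
        rintro rfl
        have : i (0 + 1) = i 1 := rfl
        omega
      obtain ⟨j', rfl⟩ := Nat.exists_eq_succ_of_ne_zero hj0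
      have h2 := hlower j' (l - 1) n hj1 (by
        have : i (j' + 2) = i (j'.succ + 1) := rfl
        omega) (by rw [Nat.sub_add_cancel (by omega)]; exact hl1)
      have h3 : f n ≤ F (l + 1) := by
        simp only [hFdef]
        rw [max_eq_left (by omega : n0 ≤ l + 1)]
        exact hf hl2.le
      have h4 : F (l + 1) ≤ C * (C * F (l - 1)) := by
        have e1 := hFC l
        have e2 := hFC (l - 1)
        rw [Nat.sub_add_cancel (by omega)] at e2
        exact e1.trans (mul_le_mul_of_nonneg_left e2 hCpos.le)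
      calc f n ≤ C * (C * F (l - 1)) := h3.trans h4
        _ ≤ C * (C * (4 * C * (S A' B' n : ℝ))) :=
            mul_le_mul_of_nonneg_left (mul_le_mul_of_nonneg_left h2 hCpos.le) hCpos.le
        _ = _ := by ring
    · obtain ⟨j, hj1, hj2⟩ := hfind l (by omega)
      have h2 := hupper j l n hj1 hj2 hl2.le
      have h3 : F l ≤ f n := by
        simp only [hFdef]
        rw [max_eq_left (by omega : n0 ≤ l)]
        exact hf hl1
      calc (S A' B' n : ℝ) ≤ 2 * F (l + 1) := h2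
        _ ≤ 2 * (C * F l) := mul_le_mul_of_nonneg_left (hFC l) (by norm_num)
        _ ≤ 2 * (C * f n) := by
            apply mul_le_mul_of_nonneg_left _ (by norm_num)
            exact mul_le_mul_of_nonneg_left h3 hCpos.le
        _ = 2 * C * f n := by ring
  refine ⟨A', B', ⟨?_, ?_, ?_⟩, 1 / (4 * C * C * C), 2 * C, by positivity, by positivity, ?_⟩
  · intro hfin
    have h1 : A hfin.toFinset.card ⊆ hfin.toFinset := fun a ha => hfin.mem_toFinset.2 ⟨_, ha⟩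
    have h2 := card_le_card h1
    rw [(h _).1.1] at h2
    omega
  · -- the second set is infinite because the sums are unbounded in number
    intro hfin
    obtain ⟨K, hK⟩ : ∃ K : ℕ, ∀ l j, (cnt (B j) l : ℕ) ≤ K := by
      refine ⟨hfin.toFinset.card, fun l j => ?_⟩
      unfold cnt
      refine (card_filter_le _ _).trans (card_le_card fun b hb => hfin.mem_toFinset.2 ⟨j, hb⟩)
    obtain ⟨N, hN⟩ := exists_nat_gt (2 * C * K)
    have h2 := ((h N).2.2.2.2.2.2.2 (i (N + 1)) (him.monotone (by omega)) le_rfl).2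
    have h3 : (cnt (B (N + 1)) (2 ^ i (N + 1)) : ℝ) ≤ K := by exact_mod_cast hK _ _
    have h4 := (h N).2.2.2.2.2.2.1
    have h5 : (0 : ℝ) < ((N + 2 : ℕ) : ℝ) := by positivity
    have h6 : ((N + 2 : ℕ) : ℝ) * ((N + 2 : ℕ) : ℝ) ≤ ((N + 2 : ℕ) : ℝ) * (2 * C * K) := by
      calc ((N + 2 : ℕ) : ℝ) * ((N + 2 : ℕ) : ℝ) ≤ F (i (N + 1)) := h4
        _ ≤ 2 * C * (((N + 2 : ℕ) : ℝ) * cnt (B (N + 1)) (2 ^ i (N + 1))) := h2
        _ ≤ 2 * C * (((N + 2 : ℕ) : ℝ) * K) := by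
            apply mul_le_mul_of_nonneg_left _ (by linarith)
            exact mul_le_mul_of_nonneg_left h3 (Nat.cast_nonneg _)
        _ = _ := by ring
    have h7 := le_of_mul_le_mul_left h6 h5
    push_cast at h7
    linarith
  · rintro x ⟨a, ⟨i1, ha⟩, b, ⟨i2, hb⟩, rfl⟩ y ⟨a', ⟨i3, ha'⟩, b', ⟨i4, hb'⟩, rfl⟩ hne
    set j := i1 + i2 + i3 + i4 with hj
    obtain ⟨_, _, hPC, _⟩ := (h j).1
    apply hPC a (hAm (by omega : i1 ≤ j) ha) b (hBm (by omega : i2 ≤ j) hb) a' (hAm (by omega : i3 ≤ j) ha')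
      b' (hBm (by omega : i4 ≤ j) hb')
    by_contra hcon
    push Not at hcon
    exact hne (by rw [hcon.1, hcon.2])
  · filter_upwards [hbounds] with n hn
    refine ⟨?_, hn.2⟩
    rw [div_mul_eq_mul_div, one_mul, div_le_iff₀ (by positivity), mul_comm]
    exact hn.1

end Pool.Agent.TH847.SC
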