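import Pool.Agent.TH847.SC.OpB

/-!
Pairwise coprime finite sumsets: many elements for the second set at one scale.
-/

set_option autoImplicit false

open Finset

namespace Pool.Agent.TH847.SC

/-- the conclusion of `opB` for given constants -/
def OB (k r J0 : ℕ) : Prop := ∀ A : Finset ℕ, A.card = k → Adm A →
    ∀ J : ℕ, J0 ≤ J → ∀ (X : ℕ) (Q : Finset ℕ), (∀ q ∈ Q, q.Prime) → Q.card ≤ 2 ^ 2 ^ (J - 1) →
    ∃ b, X < b ∧ b ≤ X + (2 ^ 2 ^ J) ^ r ∧
      ∀ a ∈ A, ∀ p : ℕ, p.Prime → (p ≤ 2 ^ 2 ^ J ∨ p ∈ Q) → ¬ p ∣ a + b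

lemma pf_card {n L : ℕ} (h : n ≤ 2 ^ L) : n.primeFactors.card ≤ L := by
  rcases Nat.eq_zero_or_pos n with rfl | hn
  · simp
  have h1 : 2 ^ n.primeFactors.card ≤ n := by
    calc 2 ^ n.primeFactors.card = ∏ _p ∈ n.primeFactors, 2 := by rw [prod_const]
      _ ≤ ∏ p ∈ n.primeFactors, p := prod_le_prod' fun p hp => (Nat.prime_of_mem_primeFactors hp).two_le
      _ ≤ n := Nat.le_of_dvd hn (Nat.prod_primeFactors_dvd n)
  exact (Nat.pow_le_pow_iff_right (by norm_num)).1 (h1.trans h)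

/-- one more element -/
lemma addOne {k r J0 : ℕ} (hOB : OB k r J0) (A B : Finset ℕ) (hA : A.card = k) (hAdm : Adm A)
    (hPC : PC A B) (J L X : ℕ) (hJ : J0 ≤ J) (hAL : ∀ a ∈ A, a ≤ 2 ^ L)
    (hBL : ∀ a ∈ A, ∀ b ∈ B, 1 ≤ a + b ∧ a + b ≤ 2 ^ L)
    (hQ : (k * B.card + k * k) * L ≤ 2 ^ 2 ^ (J - 1)) :
    ∃ b, X < b ∧ b ≤ X + (2 ^ 2 ^ J) ^ r ∧ PC A (insert b B) := by
  classical
  set Q : Finset ℕ := (A ×ˢ B).biUnion (fun q => (q.1 + q.2).primeFactors) ∪
    (A ×ˢ A).biUnion (fun q => (q.1 - q.2).primeFactors) with hQdef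
  have hQc : Q.card ≤ 2 ^ 2 ^ (J - 1) := by
    have h1 : ((A ×ˢ B).biUnion (fun q => (q.1 + q.2).primeFactors)).card ≤ (A ×ˢ B).card * L :=
      card_biUnion_le_card_mul _ _ _ fun q hq => pf_card (by
        rw [mem_product] at hq
        exact (hBL q.1 hq.1 q.2 hq.2).2)
    have h2 : ((A ×ˢ A).biUnion (fun q => (q.1 - q.2).primeFactors)).card ≤ (A ×ˢ A).card * L :=
      card_biUnion_le_card_mul _ _ _ fun q hq => pf_card (by
        rw [mem_product] at hq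
        exact (Nat.sub_le _ _).trans (hAL q.1 hq.1))
    rw [card_product, hA] at h1 h2
    calc Q.card ≤ k * B.card * L + k * k * L := (card_union_le _ _).trans (add_le_add h1 h2)
      _ = (k * B.card + k * k) * L := by ring
      _ ≤ _ := hQ
  have hQp : ∀ q ∈ Q, q.Prime := by
    intro q hq
    rw [hQdef, mem_union, mem_biUnion, mem_biUnion] at hq
    rcases hq with ⟨_, _, h⟩ | ⟨_, _, h⟩
    · exact Nat.prime_of_mem_primeFactors h
    · exact Nat.prime_of_mem_primeFactors h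
  obtain ⟨b, hb1, hb2, hb3⟩ := hOB A hA hAdm J hJ X Q hQp hQc
  refine ⟨b, hb1, hb2, ?_⟩
  have hsum : ∀ p : ℕ, p.Prime → ∀ a ∈ A, ∀ b' ∈ B, p ∣ a + b' → ∀ a' ∈ A, ¬ p ∣ a' + b := by
    intro p hp a ha b' hb' hd a' ha' hd'
    refine hb3 a' ha' p hp (Or.inr ?_) hd'
    rw [hQdef, mem_union, mem_biUnion]
    refine Or.inl ⟨(a, b'), mem_product.2 ⟨ha, hb'⟩, ?_⟩
    rw [Nat.mem_primeFactors]
    have := (hBL a ha b' hb').1
    exact ⟨hp, hd, by omega⟩
  have hdiff : ∀ p : ℕ, p.Prime → ∀ a ∈ A, ∀ a' ∈ A, a' < a → p ∣ a + b → p ∣ a' + b → False := by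
    intro p hp a ha a' ha' hlt hd hd'
    refine hb3 a ha p hp (Or.inr ?_) hd
    rw [hQdef, mem_union, mem_biUnion, mem_biUnion]
    refine Or.inr ⟨(a, a'), mem_product.2 ⟨ha, ha'⟩, ?_⟩
    rw [Nat.mem_primeFactors]
    have h1 := Nat.dvd_sub hd hd'
    rw [Nat.add_sub_add_right] at h1
    refine ⟨hp, h1, ?_⟩
    show a - a' ≠ 0
    omega
  intro a ha c hc a' ha' c' hc' hor
  apply coprime_of
  intro p hp hp1 hp2
  rw [mem_insert] at hc hc'
  rcases hc with rfl | hc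
  · rcases hc' with rfl | hc'
    · have hne : a ≠ a' := by
        rcases hor with h | h
        · exact h
        · exact absurd rfl h
      rcases Nat.lt_or_gt_of_ne hne with h | h
      · exact hdiff p hp a' ha' a ha h hp2 hp1
      · exact hdiff p hp a ha a' ha' h hp1 hp2
    · exact hsum p hp a' ha' c' hc' hp2 a ha hp1
  · rcases hc' with rfl | hc'
    · exact hsum p hp a ha c hc hp1 a' ha' hp2
    · have h3 := hPC a ha c hc a' ha' c' hc' hor
      have h4 := Nat.dvd_gcd hp1 hp2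
      rw [h3] at h4
      exact hp.one_lt.ne' (Nat.dvd_one.1 h4)

/-- many more elements -/
lemma addMany {k r J0 : ℕ} (hOB : OB k r J0) (A B : Finset ℕ) (hA : A.card = k) (hAdm : Adm A)
    (hPC : PC A B) (J L X m : ℕ) (hJ : J0 ≤ J) (hAL : ∀ a ∈ A, a ≤ 2 ^ L)
    (hB : ∀ b ∈ B, 1 ≤ b ∧ b ≤ X)
    (hBL : ∀ a ∈ A, a + (X + m * (2 ^ 2 ^ J) ^ r) ≤ 2 ^ L)
    (hQ : (k * (B.card + m) + k * k) * L ≤ 2 ^ 2 ^ (J - 1)) :
    ∃ B', B ⊆ B' ∧ B'.card = B.card + m ∧ (∀ b ∈ B', 1 ≤ b ∧ b ≤ X + m * (2 ^ 2 ^ J) ^ r) ∧ PC A B' := by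
  classical
  have key : ∀ i, i ≤ m → ∃ B', B ⊆ B' ∧ B'.card = B.card + i ∧
      (∀ b ∈ B', 1 ≤ b ∧ b ≤ X + i * (2 ^ 2 ^ J) ^ r) ∧ PC A B' := by
    intro i
    induction i with
    | zero =>
      intro _
      exact ⟨B, Subset.refl _, by omega, fun b hb => ⟨(hB b hb).1, by simpa using (hB b hb).2⟩, hPC⟩
    | succ i ih =>
      intro hi
      obtain ⟨B', h1, h2, h3, h4⟩ := ih (by omega)
      have hmono : X + i * (2 ^ 2 ^ J) ^ r ≤ X + m * (2 ^ 2 ^ J) ^ r :=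
        Nat.add_le_add_left (Nat.mul_le_mul_right _ (by omega)) _
      obtain ⟨b, hb1, hb2, hb3⟩ := addOne hOB A B' hA hAdm h4 J L (X + i * (2 ^ 2 ^ J) ^ r) hJ hAL
        (by
          intro a ha b hb
          have h5 := h3 b hb
          have h6 := hBL a ha
          exact ⟨by omega, by omega⟩)
        (by
          rw [h2]
          refine le_trans (Nat.mul_le_mul_right _ ?_) hQ
          have : k * (B.card + i) ≤ k * (B.card + m) := Nat.mul_le_mul_left _ (by omega)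
          omega)
      have hbB : b ∉ B' := fun h => by
        have := (h3 b h).2
        omega
      refine ⟨insert b B', h1.trans (subset_insert _ _), ?_, ?_, hb3⟩
      · rw [card_insert_of_notMem hbB, h2]
        ring
      · intro c hc
        rw [mem_insert] at hc
        have e : X + (i + 1) * (2 ^ 2 ^ J) ^ r = X + i * (2 ^ 2 ^ J) ^ r + (2 ^ 2 ^ J) ^ r := by ring
        rw [e]
        rcases hc with rfl | hc
        · exact ⟨by omega, hb2⟩
        · have := h3 c hc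
          exact ⟨this.1, by omega⟩
  exact key m le_rfl

/-- the scale `z_J = 2 ^ 2 ^ J` -/
def zz (J : ℕ) : ℕ := 2 ^ 2 ^ J

/-- the number `m_J = z_J ^ (1 / 8)` -/
def mm (J : ℕ) : ℕ := 2 ^ 2 ^ (J - 3)

lemma zz_eq (J : ℕ) (hJ : 3 ≤ J) : zz J = mm J ^ 8 := by
  unfold zz mm
  rw [← pow_mul]
  congr 1
  rw [show (8 : ℕ) = 2 ^ 3 by norm_num, ← pow_add]
  congr 1
  omega

lemma zz_add (J i : ℕ) : zz (J + i) = zz J ^ 2 ^ i := by
  unfold zz
  rw [← pow_mul, ← pow_add]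

lemma mm_pos (J : ℕ) : 2 ≤ mm J := by
  unfold mm
  calc 2 = 2 ^ 1 := rfl
    _ ≤ 2 ^ 2 ^ (J - 3) := Nat.pow_le_pow_right (by norm_num) Nat.one_le_two_pow

lemma mm_gt (J : ℕ) : 2 ^ (J - 3) < mm J := by
  unfold mm
  exact Nat.lt_two_pow_self

lemma mm_mono {I J : ℕ} (h : I ≤ J) : mm I ≤ mm J := by
  unfold mm
  exact Nat.pow_le_pow_right (by norm_num) (Nat.pow_le_pow_right (by norm_num) (by omega))

lemma mm_succ (J : ℕ) (hJ : 3 ≤ J) : mm (J + 1) = mm J * mm J := by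
  unfold mm
  rw [← pow_add]
  congr 1
  rw [← two_mul, ← pow_succ']
  congr 1
  omega

/-- the step at scale `J` -/
theorem stepB (k : ℕ) (hk : 1 ≤ k) : ∃ R J0 : ℕ, 2 ≤ R ∧ 3 ≤ J0 ∧ ∀ (A B : Finset ℕ) (J x : ℕ), J0 ≤ J →
    A.card = k → Adm A → PC A B → (∀ b ∈ B, 1 ≤ b ∧ b ≤ x) → x ≤ zz J ^ (R - 1) →
    (∀ a ∈ A, a ≤ 2 ^ mm J) → B.card ≤ mm J →
    ∃ B', B ⊆ B' ∧ B'.card = B.card + mm J ∧ (∀ b ∈ B', 1 ≤ b ∧ b ≤ zz J ^ R) ∧ PC A B' := by
  obtain ⟨r, J1, hOB⟩ := opB k hk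
  set R := r + 2 with hR
  set c := (2 * k + k * k) * (8 * R + 2) with hc
  refine ⟨R, J1 + c + 3, by omega, by omega, ?_⟩
  intro A B J x hJ hA hAdm hPC hB hx hAm hBm
  set z := zz J with hz
  set m := mm J with hm
  have hm2 : 2 ≤ m := mm_pos J
  have hz8 : z = m ^ 8 := zz_eq J (by omega)
  have hmz : m ≤ z := by
    rw [hz8]
    exact Nat.le_self_pow (by norm_num) m
  have hz2 : 2 ≤ z := hm2.trans hmz
  have hJm : 2 ^ J ≤ 8 * m := by
    have h1 : 2 ^ J = 8 * 2 ^ (J - 3) := by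
      rw [show (8 : ℕ) = 2 ^ 3 by norm_num, ← pow_add]
      congr 1
      omega
    have h2 := mm_gt J
    rw [h1]
    omega
  have hbound : x + m * z ^ r ≤ z ^ R := by
    have h1 : m * z ^ r ≤ z ^ (r + 1) := by
      rw [pow_succ, mul_comm]
      exact Nat.mul_le_mul_left _ hmz
    have h2 : x ≤ z ^ (r + 1) := hx
    calc x + m * z ^ r ≤ 2 * z ^ (r + 1) := by omega
      _ ≤ z * z ^ (r + 1) := Nat.mul_le_mul_right _ hz2
      _ = z ^ R := by rw [hR]; ring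
  set L := m + R * 2 ^ J + 1 with hL
  have hzR : z ^ R ≤ 2 ^ (m + R * 2 ^ J) := by
    calc z ^ R = 2 ^ (R * 2 ^ J) := by
          rw [hz, zz, ← pow_mul, mul_comm]
      _ ≤ 2 ^ (m + R * 2 ^ J) := Nat.pow_le_pow_right (by norm_num) (by omega)
  have hAL : ∀ a ∈ A, a ≤ 2 ^ (m + R * 2 ^ J) := fun a ha =>
    (hAm a ha).trans (Nat.pow_le_pow_right (by norm_num) (by omega))
  have hLL : 2 ^ L = 2 * 2 ^ (m + R * 2 ^ J) := by rw [hL, pow_succ']
  have hcm : c ≤ m * m := by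
    have h1 : c ≤ 2 ^ (J - 3) := by
      have : J - 3 < 2 ^ (J - 3) := Nat.lt_two_pow_self
      omega
    have h2 := mm_gt J
    calc c ≤ m := by omega
      _ ≤ m * m := Nat.le_mul_of_pos_left _ (by omega)
  obtain ⟨B', h1, h2, h3, h4⟩ := addMany hOB A B hA hAdm hPC J L x m (by omega)
    (fun a ha => (hAL a ha).trans (by rw [hLL]; omega)) hB
    (by
      intro a ha
      have h5 := hAL a ha
      have h6 : x + m * (2 ^ 2 ^ J) ^ r ≤ z ^ R := hbound
      rw [hLL]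
      omega)
    (by
      have h5 : k * (B.card + m) + k * k ≤ (2 * k + k * k) * m := by
        have h6 : k * (B.card + m) ≤ k * (2 * m) := Nat.mul_le_mul_left _ (by omega)
        have h7 : k * k ≤ k * k * m := Nat.le_mul_of_pos_right _ (by omega)
        have h8 : (2 * k + k * k) * m = k * (2 * m) + k * k * m := by ring
        omega
      have h6 : L ≤ (8 * R + 2) * m := by
        have h7 : R * 2 ^ J ≤ R * (8 * m) := Nat.mul_le_mul_left _ hJm
        have h8 : (8 * R + 2) * m = R * (8 * m) + 2 * m := by ring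
        omega
      calc (k * (B.card + m) + k * k) * L ≤ ((2 * k + k * k) * m) * ((8 * R + 2) * m) :=
            Nat.mul_le_mul h5 h6
        _ = c * (m * m) := by rw [hc]; ring
        _ ≤ (m * m) * (m * m) := Nat.mul_le_mul_right _ hcm
        _ = 2 ^ 2 ^ (J - 1) := by
            rw [hm, mm, ← pow_add, ← pow_add]
            congr 1
            have : 2 ^ (J - 1) = 4 * 2 ^ (J - 3) := by
              rw [show (4 : ℕ) = 2 ^ 2 by norm_num, ← pow_add]
              congr 1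
              omega
            omega)
  exact ⟨B', h1, h2, fun b hb => ⟨(h3 b hb).1, (h3 b hb).2.trans hbound⟩, h4⟩

end Pool.Agent.TH847.SC
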